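import Pool.Agent.H76.DTO.SharpDefs

/-!
Integral solutions of the affine relaxation (affine integer programming, AIP) of a Label Cover
instance, and their compatibility with solutions of the basic semidefinite relaxation.
-/

namespace Pool.Agent.H60.DTO

open Finset Pool.Agent.H76.DTO
open scoped Classical

noncomputable section

/-- An integral solution of the affine relaxation, with total weight `t`: integers for the labels
of every vertex with sum `t`, such that on every edge the integer of a left label is the sum of the
integers of the right labels mapped to it. The affine integer programming relaxation asks for a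
solution of total weight `t = 1`. -/
structure AffineSolution {V W : Type} {d R : ℕ} (Φ : LabelCover V W d R) (t : ℤ) where
  x : V → Fin R → ℤ
  y : W → Fin (d * R) → ℤ
  sum_x : ∀ v, ∑ a, x v a = t
  sum_y : ∀ w, ∑ b, y w b = t
  edge : ∀ e ∈ Φ.E, ∀ a, x e.1 a = ∑ b ∈ Finset.univ.filter (fun b => Φ.π e b = a), y e.2 b

/-- A semidefinite and an affine solution are compatible: labels with a nonzero integer have a
nonzero vector. -/
def Compatible {V W : Type} {d R N : ℕ} {Φ : LabelCover V W d R} {t : ℤ}
    (S : PerfectSolution Φ N) (T : AffineSolution Φ t) : Prop :=
  (∀ v a, T.x v a ≠ 0 → S.x v a ≠ 0) ∧ (∀ w b, T.y w b ≠ 0 → S.y w b ≠ 0)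

end

end Pool.Agent.H60.DTO
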