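import Pool.Agent.H18.DTO.Rank

/-!
The Fourier weight of a folded function on the vectors of small rank in an arbitrary linear code,
and its weighted form. This is helper18's argument for general codes `e : M → F ^ n`.
-/

namespace Pool.Agent.H60.DTO

open Finset Module Pool.Agent.H76.DTO Pool.Agent.H25.DTO Pool.Agent.H18.DTO
open scoped Classical

noncomputable section

set_option linter.unusedSectionVars false

variable {F : Type} [Field F] [Fintype F] {n : ℕ}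
variable {M : Type} [AddCommGroup M] [Module F M] [Fintype M]

/-- **The weight on vectors of rank at most `j` in a linear code.** -/
theorem weight_code (ψ : AddChar F ℂ) (hψ : ψ.IsPrimitive) (e : M →ₗ[F] (Fin n → F))
    (a : (Fin n → F) → ℝ) (h0 : ∀ f, 0 ≤ a f) (h1 : ∀ f, a f ≤ 1)
    (ha : ∀ g, ∑ m : M, a (g + e m) ≤ 1)
    (hm : ∑ f, a f = (Fintype.card F : ℝ) ^ n / (Fintype.card M : ℝ)) (j : ℕ) :
    (Fintype.card M : ℝ) * ∑ b, (if Fintype.card M ≤ Fintype.card F ^ j * (van e b).card then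
      ‖fc ψ a b‖ ^ 2 else 0) ≤
      (5 / 2 * (Fintype.card F : ℝ)) ^ j / √(Fintype.card M : ℝ) := by
  set q : ℝ := (Fintype.card F : ℝ) with hq
  have hq0 : 0 < q := qpos
  set N : ℝ := (Fintype.card M : ℝ) with hN
  have hN0 : 0 < N := by rw [hN]; exact_mod_cast Fintype.card_pos
  set K : ℝ := 5 / 2 * q with hK
  set Q : (Fin n → F) → Prop := fun b =>
    Fintype.card M ≤ Fintype.card F ^ j * (van e b).card with hQ
  set c : (Fin n → F) → ℂ := fun b => if Q b then fc ψ a b else 0 with hc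
  set X : ℝ := ∑ b, if Q b then ‖fc ψ a b‖ ^ 2 else 0 with hX
  have hX0 : 0 ≤ X := Finset.sum_nonneg fun b _ => by split_ifs <;> positivity
  have hXc : ∑ b, ‖c b‖ ^ 2 = X := by
    rw [hX]
    refine Finset.sum_congr rfl fun b _ => ?_
    rw [hc]
    simp only
    split_ifs <;> simp
  have e1 : q ^ n * X ≤ ∑ f, a f * ‖fsum ψ c f‖ := by
    have e := dual_one ψ a h0 Q
    convert e
  -- averaging over the orbits
  have e2 : ∑ f, ∑ A : M, a (f + e A) * ‖fsum ψ c (f + e A)‖ =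
      N * ∑ f, a f * ‖fsum ψ c f‖ := by
    rw [Finset.sum_comm]
    have : ∀ A : M, ∑ f, a (f + e A) * ‖fsum ψ c (f + e A)‖ =
        ∑ f, a f * ‖fsum ψ c f‖ := fun A =>
      Equiv.sum_comp (Equiv.addRight (e A)) (fun f => a f * ‖fsum ψ c f‖)
    rw [Finset.sum_congr rfl fun A _ => this A, Finset.sum_const, Finset.card_univ, nsmul_eq_mul]
  have e3 : ∑ f, ∑ A : M, a (f + e A) = q ^ n := by
    rw [Finset.sum_comm]
    have : ∀ A : M, ∑ f, a (f + e A) = ∑ f, a f := fun A =>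
      Equiv.sum_comp (Equiv.addRight (e A)) a
    rw [Finset.sum_congr rfl fun A _ => this A, Finset.sum_const, Finset.card_univ, nsmul_eq_mul,
      hm, mul_div_cancel₀ _ hN0.ne']
  have e4 : (∑ f, ∑ A : M, a (f + e A) * ‖fsum ψ c (f + e A)‖) ^ 2 ≤
      (∑ f, ∑ A : M, a (f + e A)) *
        ∑ f, √(∑ A : M, (‖fsum ψ c (f + e A)‖ ^ 2) ^ 2) := by
    refine Finset.sum_sq_le_sum_mul_sum_of_sq_le_mul _
      (fun f _ => Finset.sum_nonneg fun A _ => h0 _) (fun f _ => Real.sqrt_nonneg _) ?_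
    intro f _
    exact cs_orbit (fun A : M => a (f + e A)) (fun A => ‖fsum ψ c (f + e A)‖)
      (fun A => h0 _) (fun A => h1 _) (ha f)
  have e5 : ∑ f, √(∑ A : M, (‖fsum ψ c (f + e A)‖ ^ 2) ^ 2) =
      √N * orb e (fun y => ‖fsum ψ c y‖ ^ 2) := by
    rw [orb, Finset.mul_sum]
    refine Finset.sum_congr rfl fun f _ => ?_
    rw [← Real.sqrt_mul hN0.le, mul_div_cancel₀ _ hN0.ne']
  have e6 := orb_le ψ hψ n M e j c (fun b hb => by
    rw [hc]
    simp only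
    rw [if_neg hb])
  rw [← hq, ← hK, hXc] at e6
  rw [e2, e3, e5] at e4
  have hsN : 0 < √N := Real.sqrt_pos.2 hN0
  have hNN : √N * √N = N := Real.mul_self_sqrt hN0.le
  have hqn : 0 < q ^ n := pow_pos hq0 n
  have hK0 : 0 ≤ K := by positivity
  have e7 : (N * (q ^ n * X)) ^ 2 ≤ q ^ n * (√N * (q ^ n * K ^ j * X)) := by
    calc (N * (q ^ n * X)) ^ 2 ≤ (N * ∑ f, a f * ‖fsum ψ c f‖) ^ 2 :=
          pow_le_pow_left₀ (by positivity) (mul_le_mul_of_nonneg_left e1 hN0.le) 2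
      _ ≤ _ := e4
      _ ≤ _ := by gcongr
  rcases hX0.eq_or_lt with h | h
  · rw [← h, mul_zero]
    positivity
  · rw [le_div_iff₀ hsN]
    have e8 : (q ^ n * q ^ n * √N * X) * (N * X * √N) ≤ (q ^ n * q ^ n * √N * X) * K ^ j := by
      calc (q ^ n * q ^ n * √N * X) * (N * X * √N) = (N * (q ^ n * X)) ^ 2 := by
            rw [mul_pow N, sq N]
            nth_rewrite 4 [← hNN]
            ring
        _ ≤ _ := e7
        _ = _ := by ring
    exact le_of_mul_le_mul_left e8 (by positivity)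

/-- Parseval for the Fourier coefficients -/
lemma fc_sq (ψ : AddChar F ℂ) (hψ : ψ.IsPrimitive) (a : (Fin n → F) → ℝ) :
    (Fintype.card F : ℝ) ^ n * ∑ b, ‖fc ψ a b‖ ^ 2 = ∑ f, a f ^ 2 := by
  rw [← fsum_sq ψ hψ]
  refine Finset.sum_congr rfl fun y _ => ?_
  rw [fsum_fc ψ hψ, Complex.norm_real, Real.norm_eq_abs, sq_abs]

/-- The weighted Fourier sum decays: `w b` is a weight which is at most `d ^ (-r)` for vectors `b`
of rank greater than or equal to `r`. -/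
theorem weighted_code (ψ : AddChar F ℂ) (hψ : ψ.IsPrimitive) (e : M →ₗ[F] (Fin n → F))
    (a : (Fin n → F) → ℝ) (h0 : ∀ f, 0 ≤ a f) (h1 : ∀ f, a f ≤ 1)
    (ha : ∀ g, ∑ m : M, a (g + e m) ≤ 1)
    (hm : ∑ f, a f = (Fintype.card F : ℝ) ^ n / (Fintype.card M : ℝ)) (d D₀ : ℕ) (hd : 0 < d)
    (hdq : d ≤ Fintype.card F) (r : (Fin n → F) → ℕ)
    (hr : ∀ b, Fintype.card M ≤ Fintype.card F ^ r b * (van e b).card)
    (hD : (5 / 2 * (Fintype.card F : ℝ)) ^ D₀ ≤ √(Fintype.card M : ℝ)) :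
    (Fintype.card M : ℝ) * ∑ b, ‖fc ψ a b‖ ^ 2 * ((d : ℝ) ^ r b)⁻¹ ≤ 3 * ((d : ℝ) ^ D₀)⁻¹ := by
  set q : ℝ := (Fintype.card F : ℝ) with hq
  have hq0 : 0 < q := qpos
  set N : ℝ := (Fintype.card M : ℝ) with hN
  have hN0 : 0 < N := by rw [hN]; exact_mod_cast Fintype.card_pos
  have hsN : 0 < √N := Real.sqrt_pos.2 hN0
  have hd1 : (1 : ℝ) ≤ d := by exact_mod_cast hd
  have hd0 : (0 : ℝ) < d := by linarith
  have hdq' : (d : ℝ) ≤ q := by rw [hq]; exact_mod_cast hdq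
  have hq1 : 1 ≤ q := hd1.trans hdq'
  -- pointwise bound of the weight
  have hpt : ∀ b, ((d : ℝ) ^ r b)⁻¹ ≤ ∑ D ∈ Finset.range (D₀ + 1),
      (if Fintype.card M ≤ Fintype.card F ^ D * (van e b).card then ((d : ℝ) ^ D)⁻¹ else 0) +
        ((d : ℝ) ^ D₀)⁻¹ := by
    intro b
    have hnn : ∀ D ∈ Finset.range (D₀ + 1), (0 : ℝ) ≤
        (if Fintype.card M ≤ Fintype.card F ^ D * (van e b).card then ((d : ℝ) ^ D)⁻¹ else 0) := by
      intro D _
      split_ifs <;> positivity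
    by_cases hb : r b ≤ D₀
    · have e3 := Finset.single_le_sum hnn (Finset.mem_range.2 (Nat.lt_succ_of_le hb))
      rw [if_pos (hr b)] at e3
      have : 0 ≤ ((d : ℝ) ^ D₀)⁻¹ := by positivity
      linarith
    · have e4 : ((d : ℝ) ^ r b)⁻¹ ≤ ((d : ℝ) ^ D₀)⁻¹ :=
        inv_anti₀ (by positivity) (pow_le_pow_right₀ hd1 (by omega))
      have := Finset.sum_nonneg hnn
      linarith
  have hpar : N * ∑ b, ‖fc ψ a b‖ ^ 2 ≤ 1 := by
    have e0 := fc_sq ψ hψ a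
    have e1 : ∑ f, a f ^ 2 ≤ ∑ f, a f := Finset.sum_le_sum fun g _ => by
      calc a g ^ 2 = a g * a g := by ring
        _ ≤ a g * 1 := mul_le_mul_of_nonneg_left (h1 g) (h0 g)
        _ = a g := mul_one _
    rw [hm, ← e0, ← hq, le_div_iff₀ hN0] at e1
    have hqn : 0 < q ^ n := pow_pos hq0 n
    have e2 : q ^ n * (N * ∑ b, ‖fc ψ a b‖ ^ 2) ≤ q ^ n * 1 := by linarith
    exact le_of_mul_le_mul_left e2 hqn
  have hW : ∀ D : ℕ, N * ∑ b, ‖fc ψ a b‖ ^ 2 *
      (if Fintype.card M ≤ Fintype.card F ^ D * (van e b).card then ((d : ℝ) ^ D)⁻¹ else 0) ≤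
        (5 / 2 * q / d) ^ D / √N := by
    intro D
    have e1 := weight_code ψ hψ e a h0 h1 ha hm D
    rw [← hq, ← hN] at e1
    have e2 : ∑ b, ‖fc ψ a b‖ ^ 2 *
        (if Fintype.card M ≤ Fintype.card F ^ D * (van e b).card then ((d : ℝ) ^ D)⁻¹ else 0) =
        (∑ b, (if Fintype.card M ≤ Fintype.card F ^ D * (van e b).card then
          ‖fc ψ a b‖ ^ 2 else 0)) * ((d : ℝ) ^ D)⁻¹ := by
      rw [Finset.sum_mul]
      refine Finset.sum_congr rfl fun b _ => ?_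
      split_ifs <;> simp
    rw [e2, ← mul_assoc]
    calc _ ≤ (5 / 2 * q) ^ D / √N * ((d : ℝ) ^ D)⁻¹ :=
          mul_le_mul_of_nonneg_right e1 (by positivity)
      _ = _ := by rw [div_pow]; field_simp
  have hx2 : 2 ≤ 5 / 2 * q / d := by
    rw [le_div_iff₀ hd0]
    linarith
  calc N * ∑ b, ‖fc ψ a b‖ ^ 2 * ((d : ℝ) ^ r b)⁻¹
      ≤ N * ∑ b, ‖fc ψ a b‖ ^ 2 * (∑ D ∈ Finset.range (D₀ + 1),
      (if Fintype.card M ≤ Fintype.card F ^ D * (van e b).card then ((d : ℝ) ^ D)⁻¹ else 0) +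
        ((d : ℝ) ^ D₀)⁻¹) := by
        refine mul_le_mul_of_nonneg_left (Finset.sum_le_sum fun b _ => ?_) hN0.le
        exact mul_le_mul_of_nonneg_left (hpt b) (sq_nonneg _)
    _ = ∑ D ∈ Finset.range (D₀ + 1), N * ∑ b, ‖fc ψ a b‖ ^ 2 *
      (if Fintype.card M ≤ Fintype.card F ^ D * (van e b).card then ((d : ℝ) ^ D)⁻¹ else 0) +
        (N * ∑ b, ‖fc ψ a b‖ ^ 2) * ((d : ℝ) ^ D₀)⁻¹ := by
        simp only [mul_add, Finset.mul_sum, Finset.sum_add_distrib, Finset.sum_mul]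
        rw [Finset.sum_comm]
        congr 1
        exact Finset.sum_congr rfl fun b _ => by ring
    _ ≤ ∑ D ∈ Finset.range (D₀ + 1), (5 / 2 * q / d) ^ D / √N + 1 * ((d : ℝ) ^ D₀)⁻¹ := by
        refine add_le_add (Finset.sum_le_sum fun D _ => hW D) ?_
        exact mul_le_mul_of_nonneg_right hpar (by positivity)
    _ ≤ 2 * ((d : ℝ) ^ D₀)⁻¹ + 1 * ((d : ℝ) ^ D₀)⁻¹ := by
        refine add_le_add ?_ le_rfl
        rw [← Finset.sum_div]
        have e3 := geom_le (5 / 2 * q / d) hx2 D₀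
        calc (∑ D ∈ Finset.range (D₀ + 1), (5 / 2 * q / d) ^ D) / √N
            ≤ (2 * (5 / 2 * q / d) ^ D₀) / √N := by gcongr
          _ = 2 * ((5 / 2 * q) ^ D₀ / √N) * ((d : ℝ) ^ D₀)⁻¹ := by
              rw [div_pow]; field_simp
          _ ≤ 2 * 1 * ((d : ℝ) ^ D₀)⁻¹ := by
              have : (5 / 2 * q) ^ D₀ / √N ≤ 1 := (div_le_one hsN).2 hD
              gcongr
          _ = _ := by ring
    _ = _ := by ring

end

end Pool.Agent.H60.DTO
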