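import Pool.Agent.H60.DTO.Sdp

/-!
Additional right labels: an instance is extended by right labels to which both relaxations give
weight zero. For the dihedral instances the additional labels are mapped by translations, and the
soundness bound does not change.
-/

namespace Pool.Agent.H60.DTO

open Finset Pool.Agent.H76.DTO
open scoped Classical RealInnerProductSpace

noncomputable section

section Generic

variable {V W : Type} {s m R N : ℕ}

/-- right labels of the extension -/
def xE (s m R : ℕ) : Fin (s * R) ⊕ Fin (m * R) ≃ Fin ((s + m) * R) :=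
  finSumFinEquiv.trans (finCongr (add_mul s m R).symm)

/-- sums over the right labels of the extension -/
lemma sum_xE {M : Type} [AddCommMonoid M] (h : Fin ((s + m) * R) → M) :
    ∑ b, h b = (∑ b, h (xE s m R (Sum.inl b))) + ∑ b, h (xE s m R (Sum.inr b)) := by
  rw [← Equiv.sum_comp (xE s m R), Fintype.sum_sum_type]

/-- **The extension of an instance by additional right labels.** -/
def ext (Φ : LabelCover V W s R) (ρ : V × W → Fin (m * R) → Fin R)
    (hρ : ∀ e ∈ Φ.E, ∀ a, (Finset.univ.filter (fun b => ρ e b = a)).card ≤ m) :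
    LabelCover V W (s + m) R where
  E := Φ.E
  π e b := Sum.elim (Φ.π e) (ρ e) ((xE s m R).symm b)
  dto1 := by
    intro e he a
    have h1 := Φ.dto1 e he a
    have h2 := hρ e he a
    rw [Finset.card_filter] at h1 h2 ⊢
    rw [sum_xE]
    simp only [Equiv.symm_apply_apply, Sum.elim_inl, Sum.elim_inr]
    exact Nat.add_le_add h1 h2

variable (Φ : LabelCover V W s R) (ρ : V × W → Fin (m * R) → Fin R)
    (hρ : ∀ e ∈ Φ.E, ∀ a, (Finset.univ.filter (fun b => ρ e b = a)).card ≤ m)

lemma ext_pi_inl (e : V × W) (b : Fin (s * R)) :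
    (ext Φ ρ hρ).π e (xE s m R (Sum.inl b)) = Φ.π e b := by
  simp only [ext, Equiv.symm_apply_apply, Sum.elim_inl]

lemma ext_pi_inr (e : V × W) (b : Fin (m * R)) :
    (ext Φ ρ hρ).π e (xE s m R (Sum.inr b)) = ρ e b := by
  simp only [ext, Equiv.symm_apply_apply, Sum.elim_inr]

/-- the semidefinite solution of the extension -/
def extSol (P : PerfectSolution Φ N) : PerfectSolution (ext Φ ρ hρ) N where
  x := P.x
  y w b := Sum.elim (P.y w) (fun _ => 0) ((xE s m R).symm b)
  orth_x := P.orth_x
  orth_y := by
    intro w b b' h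
    obtain ⟨c, rfl⟩ := (xE s m R).surjective b
    obtain ⟨c', rfl⟩ := (xE s m R).surjective b'
    rcases c with b | b <;> rcases c' with b' | b' <;>
      simp only [Equiv.symm_apply_apply, Sum.elim_inl, Sum.elim_inr, inner_zero_left,
        inner_zero_right]
    exact P.orth_y _ _ _ (by rintro rfl; exact h rfl)
  norm_x := P.norm_x
  norm_y := by
    intro w
    rw [sum_xE]
    simp only [Equiv.symm_apply_apply, Sum.elim_inl, Sum.elim_inr, norm_zero]
    rw [P.norm_y]
    simp
  perfect := by
    intro e he
    rw [sum_xE]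
    simp only [ext_pi_inl, ext_pi_inr, Equiv.symm_apply_apply, Sum.elim_inl, Sum.elim_inr,
      inner_zero_right]
    rw [P.perfect e he]
    simp

/-- the affine solution of the extension -/
def extAff {t : ℤ} (A : AffineSolution Φ t) : AffineSolution (ext Φ ρ hρ) t where
  x := A.x
  y w b := Sum.elim (A.y w) (fun _ => 0) ((xE s m R).symm b)
  sum_x := A.sum_x
  sum_y := by
    intro w
    rw [sum_xE]
    simp only [Equiv.symm_apply_apply, Sum.elim_inl, Sum.elim_inr]
    rw [A.sum_y]
    simp
  edge := by
    intro e he a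
    rw [Finset.sum_filter, sum_xE]
    simp only [ext_pi_inl, ext_pi_inr, Equiv.symm_apply_apply, Sum.elim_inl, Sum.elim_inr,
      ite_self, Finset.sum_const_zero, add_zero]
    rw [A.edge e he a, Finset.sum_filter]

lemma extSol_common (P : PerfectSolution Φ N) (h : P.CommonSum) :
    (extSol Φ ρ hρ P).CommonSum := by
  obtain ⟨z, h1, h2, h3⟩ := h
  refine ⟨z, h1, h2, fun w => ?_⟩
  rw [sum_xE]
  simp only [extSol, Equiv.symm_apply_apply, Sum.elim_inl, Sum.elim_inr, Finset.sum_const_zero,
    add_zero]
  exact h3 w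

lemma ext_compat (P : PerfectSolution Φ N) (hP : Full P) {t : ℤ} (A : AffineSolution Φ t) :
    Compatible (extSol Φ ρ hρ P) (extAff Φ ρ hρ A) := by
  refine ⟨fun v a _ => hP.1 v a, ?_⟩
  intro w b
  obtain ⟨c, rfl⟩ := (xE s m R).surjective b
  rcases c with b | b <;>
    simp only [extSol, extAff, Equiv.symm_apply_apply, Sum.elim_inl, Sum.elim_inr]
  · exact fun _ => hP.2 w b
  · exact fun h => absurd rfl h

end Generic

variable {F : Type} [Field F] [Fintype F] {k : ℕ} (S : Subgroup Fˣ) (m : ℕ)

/-- the additional labels -/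
def labX (F : Type) [Fintype F] (k m : ℕ) : Fin (m * Fintype.card (AA F k)) ≃ AA F k × Fin m :=
  (Fintype.equivFinOfCardEq (by rw [Fintype.card_prod, Fintype.card_fin, mul_comm])).symm

/-- the additional labels are mapped by translations -/
def trX (e : VV F k × WW S k) (b : Fin (m * Fintype.card (AA F k))) :
    Fin (Fintype.card (AA F k)) := (labV F k).symm ((labX F k m b).1 - yy S e.1 e.2)

lemma trX_card (e : VV F k × WW S k) (a : Fin (Fintype.card (AA F k))) :
    (Finset.univ.filter (fun b => trX S m e b = a)).card ≤ m := by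
  have h0 : m = (Finset.univ : Finset (Fin m)).card := by rw [Finset.card_univ, Fintype.card_fin]
  conv_rhs => rw [h0]
  refine Finset.card_le_card_of_injOn (fun b => (labX F k m b).2) (fun b _ => Finset.mem_univ _) ?_
  intro b hb b' hb' h
  have h1 : trX S m e b = a := by simpa using hb
  have h2 : trX S m e b' = a := by simpa using hb'
  have h3 := h1.trans h2.symm
  rw [trX, trX, (labV F k).symm.injective.eq_iff] at h3
  exact (labX F k m).injective (Prod.ext (sub_left_injective h3) h)

/-- **The dihedral instance with additional labels.** -/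
def dext (S : Subgroup Fˣ) (k m : ℕ) :
    LabelCover (VV F k) (WW S k) (Fintype.card S + m) (Fintype.card (AA F k)) :=
  ext (dinst S k) (trX S m) (fun e _ a => trX_card S m e a)

theorem dext_frac (D₀ : ℕ)
    (hD : (5 / 2 * (Fintype.card F : ℝ)) ^ D₀ ≤ √(Fintype.card (AA F k) : ℝ))
    (Fl : VV F k → Fin (Fintype.card (AA F k)))
    (gl : WW S k → Fin ((Fintype.card S + m) * Fintype.card (AA F k))) :
    (dext S k m).frac Fl gl ^ 2 ≤
      3 * (Fintype.card S : ℝ) * ((Fintype.card S : ℝ) ^ D₀)⁻¹ := by
  refine edg_frac S (dext S k m) rfl D₀ hD Fl gl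
    (fun T => Sum.elim (fun b => (labW S k b).1) (fun b => (labX F k m b).1)
      ((xE (Fintype.card S) m (Fintype.card (AA F k))).symm (gl T))) ?_
  intro T y h
  obtain ⟨c, hc⟩ := (xE (Fintype.card S) m (Fintype.card (AA F k))).surjective (gl T)
  rw [← hc] at h ⊢
  rw [Equiv.symm_apply_apply]
  rcases c with b | b
  · rw [dext, ext_pi_inl, dinst_pi] at h
    have e4 := rel_gam S ((labW S k b).1 - y, (labW S k b).2)
    rw [← h, Equiv.apply_symm_apply]
    exact e4
  · rw [dext, ext_pi_inr, trX] at h
    simp only [yy_spec] at h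
    rw [← h, Equiv.apply_symm_apply]
    exact Rel.refl S _

end

end Pool.Agent.H60.DTO
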