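import Pool.Agent.H60.DTO.Inst

/-!
The rank of the support of a vector of Fourier frequencies: the code vanishes on the support on a
subspace of small codimension, and the orientations with a given twisted sum are few.
-/

namespace Pool.Agent.H60.DTO

open Finset Module Pool.Agent.H76.DTO Pool.Agent.H25.DTO Pool.Agent.H18.DTO
open scoped Classical

noncomputable section

set_option linter.unusedSectionVars false

variable {F : Type} [Field F] [Fintype F] {k : ℕ} (S : Subgroup Fˣ)

lemma exists_basis (b : Fin (nn F k) → F) :
    ∃ (r : ℕ) (v : Fin r → Fin (nn F k)), Function.Injective v ∧ (∀ j, b (v j) ≠ 0) ∧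
      LinearIndependent F (fun j => pt F k (v j)) ∧
      ∀ i, b i ≠ 0 → pt F k i ∈ Submodule.span F (Set.range fun j => pt F k (v j)) := by
  obtain ⟨κ, a, ha, hs, hl⟩ := exists_linearIndependent' F
    (fun i : {i : Fin (nn F k) // b i ≠ 0} => pt F k i.1)
  have : Finite κ := Finite.of_injective a ha
  have : Fintype κ := Fintype.ofFinite κ
  set ε : Fin (Fintype.card κ) ≃ κ := (Fintype.equivFin κ).symm with hε
  refine ⟨Fintype.card κ, fun j => (a (ε j)).1, ?_, fun j => (a (ε j)).2, ?_, ?_⟩
  · intro j j' h
    exact ε.injective (ha (Subtype.ext h))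
  · exact hl.comp ε ε.injective
  · intro i hi
    have h1 : pt F k i ∈ Submodule.span F
        (Set.range (fun i : {i : Fin (nn F k) // b i ≠ 0} => pt F k i.1)) :=
      Submodule.subset_span ⟨⟨i, hi⟩, rfl⟩
    rw [← hs] at h1
    have h2 : Set.range ((fun i : {i : Fin (nn F k) // b i ≠ 0} => pt F k i.1) ∘ a) =
        Set.range (fun j => pt F k (a (ε j)).1) := by
      ext x
      constructor
      · rintro ⟨c, rfl⟩
        exact ⟨ε.symm c, by simp⟩
      · rintro ⟨j, rfl⟩
        exact ⟨ε j, rfl⟩
    rw [← h2]
    exact h1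

/-- the rank of a support -/
def rk (b : Fin (nn F k) → F) : ℕ := (exists_basis b).choose

/-- an independent part of the support -/
def bas (b : Fin (nn F k) → F) : Fin (rk b) → Fin (nn F k) := (exists_basis b).choose_spec.choose

lemma bas_inj (b : Fin (nn F k) → F) : Function.Injective (bas b) :=
  (exists_basis b).choose_spec.choose_spec.1

lemma bas_ne (b : Fin (nn F k) → F) (j : Fin (rk b)) : b (bas b j) ≠ 0 :=
  (exists_basis b).choose_spec.choose_spec.2.1 j

lemma bas_ind (b : Fin (nn F k) → F) : LinearIndependent F (fun j => pt F k (bas b j)) :=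
  (exists_basis b).choose_spec.choose_spec.2.2.1

lemma bas_span (b : Fin (nn F k) → F) (i : Fin (nn F k)) (hi : b i ≠ 0) :
    pt F k i ∈ Submodule.span F (Set.range fun j => pt F k (bas b j)) :=
  (exists_basis b).choose_spec.choose_spec.2.2.2 i hi

/-- the code vanishes on the support on a large subspace -/
lemma card_van_le (o : Fin (nn F k) → S) (b : Fin (nn F k) → F) :
    Fintype.card (AA F k) ≤ Fintype.card F ^ rk b * (van (code S o) b).card := by
  set L : AA F k → (Fin (rk b) → F) := fun x j => dot (pt F k (bas b j)) x with hL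
  have hLs : ∀ x y, L (x - y) = L x - L y := by
    intro x y
    funext j
    simp only [hL, Pi.sub_apply, dot_sub]
  have hker : ∀ x, L x = 0 → x ∈ van (code S o) b := by
    intro x hx
    rw [van, Finset.mem_filter]
    refine ⟨Finset.mem_univ _, fun i hi => ?_⟩
    have h1 : ∀ w ∈ Submodule.span F (Set.range fun j => pt F k (bas b j)), dot w x = 0 := by
      intro w hw
      refine Submodule.span_induction ?_ ?_ ?_ ?_ hw
      · rintro _ ⟨j, rfl⟩
        exact congrFun hx j
      · simp [dot]
      · intro u v _ _ hu hv
        rw [dot_comm, dot_add, dot_comm, hu, dot_comm, hv, add_zero]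
      · intro c u _ hu
        rw [dot_comm, dot_smul, dot_comm, hu, mul_zero]
    rw [code_apply, h1 _ (bas_span b i hi), mul_zero]
  have h1 := Finset.card_le_mul_card_image_of_maps_to (f := L)
    (s := (Finset.univ : Finset (AA F k))) (t := (Finset.univ : Finset (Fin (rk b) → F)))
    (fun _ _ => Finset.mem_univ _) (van (code S o) b).card (by
      intro t _
      rcases (Finset.univ.filter (fun x => L x = t)).eq_empty_or_nonempty with h | ⟨x₀, hx₀⟩
      · rw [h]; simp
      · refine Finset.card_le_card_of_injOn (fun x => x - x₀) ?_ ?_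
        · intro x hx
          have e1 : L x = t := (Finset.mem_filter.1 hx).2
          have e2 : L x₀ = t := (Finset.mem_filter.1 hx₀).2
          exact hker _ (by rw [hLs, e1, e2, sub_self])
        · intro x _ y _ h
          exact sub_left_injective h)
  have e1 : (Finset.univ : Finset (AA F k)).card = Fintype.card (AA F k) := Finset.card_univ
  have e2 : (Finset.univ : Finset (Fin (rk b) → F)).card = Fintype.card F ^ rk b := by
    rw [Finset.card_univ, Fintype.card_fun, Fintype.card_fin]
  rw [e1, e2, mul_comm] at h1
  exact h1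

/-- the twisted sum -/
def tw (b : Fin (nn F k) → F) (o : Fin (nn F k) → S) : AA F k :=
  ∑ i, (b i * sc S (o i)) • pt F k i

lemma dot_code (b : Fin (nn F k) → F) (o : Fin (nn F k) → S) (u : AA F k) :
    dot b (code S o u) = dot (tw S b o) u := by
  have h1 : ∀ x : AA F k, dot x u = dot u x := fun x => dot_comm _ _
  rw [h1, tw]
  have h2 : dot u (∑ i, (b i * sc S (o i)) • pt F k i) =
      ∑ i, dot u ((b i * sc S (o i)) • pt F k i) := by
    simp only [dot, Finset.sum_apply, Finset.mul_sum]
    rw [Finset.sum_comm]
  rw [h2, dot]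
  refine Finset.sum_congr rfl fun i _ => ?_
  rw [dot_smul, code_apply, dot_comm]
  ring

/-- few orientations have a given twisted sum -/
lemma card_tw (b : Fin (nn F k) → F) (s : AA F k) :
    (Finset.univ.filter (fun o : Fin (nn F k) → S => tw S b o = s)).card *
      Fintype.card S ^ rk b ≤ Fintype.card S ^ nn F k := by
  set upd : (Fin (nn F k) → S) × (Fin (rk b) → S) → (Fin (nn F k) → S) := fun p i =>
    if h : ∃ j, bas b j = i then p.2 h.choose else p.1 i with hupd
  have hin : ∀ p j, upd p (bas b j) = p.2 j := by
    intro p j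
    have h : ∃ j', bas b j' = bas b j := ⟨j, rfl⟩
    simp only [hupd]
    rw [dif_pos h, bas_inj b h.choose_spec]
  have hout : ∀ p i, (¬ ∃ j, bas b j = i) → upd p i = p.1 i := by
    intro p i h
    simp only [hupd]
    rw [dif_neg h]
  have h1 : ((Finset.univ.filter (fun o : Fin (nn F k) → S => tw S b o = s)) ×ˢ
      (Finset.univ : Finset (Fin (rk b) → S))).card ≤
      (Finset.univ : Finset (Fin (nn F k) → S)).card := by
    refine Finset.card_le_card_of_injOn upd (fun _ _ => Finset.mem_univ _) ?_
    intro p hp p' hp' h
    have hp1 : tw S b p.1 = s := (Finset.mem_filter.1 (Finset.mem_product.1 hp).1).2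
    have hp2 : tw S b p'.1 = s := (Finset.mem_filter.1 (Finset.mem_product.1 hp').1).2
    have e1 : p.2 = p'.2 := by
      funext j
      rw [← hin p j, ← hin p' j, h]
    have e2 : ∀ i, (¬ ∃ j, bas b j = i) → p.1 i = p'.1 i := by
      intro i hi
      rw [← hout p i hi, ← hout p' i hi, h]
    have e3 : ∑ i, (b i * (sc S (p.1 i) - sc S (p'.1 i))) • pt F k i = 0 := by
      have : tw S b p.1 - tw S b p'.1 = 0 := by rw [hp1, hp2, sub_self]
      rw [tw, tw, ← Finset.sum_sub_distrib] at this
      rw [← this]
      refine Finset.sum_congr rfl fun i _ => ?_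
      rw [← sub_smul]
      congr 1
      ring
    have e4 : ∑ j, (b (bas b j) * (sc S (p.1 (bas b j)) - sc S (p'.1 (bas b j)))) •
        pt F k (bas b j) = 0 := by
      rw [← e3]
      have e5 : ∑ i ∈ Finset.univ.image (bas b),
          (b i * (sc S (p.1 i) - sc S (p'.1 i))) • pt F k i =
          ∑ i, (b i * (sc S (p.1 i) - sc S (p'.1 i))) • pt F k i := by
        refine Finset.sum_subset (Finset.subset_univ _) ?_
        intro i _ hi
        have : ¬ ∃ j, bas b j = i := by
          rintro ⟨j, rfl⟩
          exact hi (Finset.mem_image_of_mem _ (Finset.mem_univ _))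
        rw [e2 i this, sub_self, mul_zero, zero_smul]
      rw [← e5, Finset.sum_image (fun j _ j' _ h => bas_inj b h)]
    have e6 := (Fintype.linearIndependent_iff.1 (bas_ind b)) _ e4
    have e7 : p.1 = p'.1 := by
      funext i
      by_cases hi : ∃ j, bas b j = i
      · obtain ⟨j, rfl⟩ := hi
        have := (mul_eq_zero.1 (e6 j)).resolve_left (bas_ne b j)
        exact sc_inj S (sub_eq_zero.1 this)
      · exact e2 i hi
    exact Prod.ext e7 e1
  rw [Finset.card_product, Finset.card_univ, Finset.card_univ, Fintype.card_fun, Fintype.card_fun,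
    Fintype.card_fin, Fintype.card_fin] at h1
  exact h1

end

end Pool.Agent.H60.DTO
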