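import Pool.Agent.H60.DTO.AffDefs

/-!
The union of two `d`-to-1 Label Cover instances: the vertices and the edges are pairs, the labels
are the disjoint union. Solutions of the basic semidefinite relaxation add up, and integral affine
solutions combine; the value is at most the sum of the two values.
-/

namespace Pool.Agent.H60.DTO

open Finset Pool.Agent.H76.DTO
open scoped Classical RealInnerProductSpace

noncomputable section

variable {V₁ W₁ V₂ W₂ : Type} {d R₁ R₂ N₁ N₂ : ℕ}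

/-- left labels of the union -/
def lE (R₁ R₂ : ℕ) : Fin R₁ ⊕ Fin R₂ ≃ Fin (R₁ + R₂) := finSumFinEquiv

/-- right labels of the union -/
def rE (d R₁ R₂ : ℕ) : Fin (d * R₁) ⊕ Fin (d * R₂) ≃ Fin (d * (R₁ + R₂)) :=
  finSumFinEquiv.trans (finCongr (mul_add d R₁ R₂).symm)

/-- pairs of edges are edges between pairs -/
def eE (V₁ W₁ V₂ W₂ : Type) : (V₁ × W₁) × (V₂ × W₂) ≃ (V₁ × V₂) × (W₁ × W₂) :=
  Equiv.prodProdProdComm V₁ W₁ V₂ W₂

/-- the map of the union on an edge -/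
def uπ (Φ₁ : LabelCover V₁ W₁ d R₁) (Φ₂ : LabelCover V₂ W₂ d R₂) (e : (V₁ × V₂) × (W₁ × W₂))
    (b : Fin (d * (R₁ + R₂))) : Fin (R₁ + R₂) :=
  lE R₁ R₂ (Sum.map (Φ₁.π (e.1.1, e.2.1)) (Φ₂.π (e.1.2, e.2.2)) ((rE d R₁ R₂).symm b))

/-- **The union of two instances.** -/
def uni (Φ₁ : LabelCover V₁ W₁ d R₁) (Φ₂ : LabelCover V₂ W₂ d R₂) :
    LabelCover (V₁ × V₂) (W₁ × W₂) d (R₁ + R₂) where
  E := (Φ₁.E ×ˢ Φ₂.E).map (eE V₁ W₁ V₂ W₂).toEmbedding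
  π := uπ Φ₁ Φ₂
  dto1 := by
    intro e he a
    obtain ⟨⟨e₁, e₂⟩, h12, rfl⟩ := Finset.mem_map.1 he
    obtain ⟨h1, h2⟩ := Finset.mem_product.1 h12
    obtain ⟨c, rfl⟩ := (lE R₁ R₂).surjective a
    rcases c with a₁ | a₂
    · refine le_trans ?_ (Φ₁.dto1 e₁ h1 a₁)
      rw [← Finset.card_map (⟨fun b => rE d R₁ R₂ (Sum.inl b), fun b b' h =>
        Sum.inl_injective ((rE d R₁ R₂).injective h)⟩ : Fin (d * R₁) ↪ Fin (d * (R₁ + R₂)))]
      refine Finset.card_le_card fun b hb => ?_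
      rw [Finset.mem_filter] at hb
      obtain ⟨c, rfl⟩ := (rE d R₁ R₂).surjective b
      rcases c with b₁ | b₂
      · refine Finset.mem_map.2 ⟨b₁, Finset.mem_filter.2 ⟨Finset.mem_univ _, ?_⟩, rfl⟩
        have h := hb.2
        rw [uπ, Equiv.symm_apply_apply, (lE R₁ R₂).injective.eq_iff] at h
        exact Sum.inl_injective h
      · have h := hb.2
        rw [uπ, Equiv.symm_apply_apply, (lE R₁ R₂).injective.eq_iff] at h
        simp at h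
    · refine le_trans ?_ (Φ₂.dto1 e₂ h2 a₂)
      rw [← Finset.card_map (⟨fun b => rE d R₁ R₂ (Sum.inr b), fun b b' h =>
        Sum.inr_injective ((rE d R₁ R₂).injective h)⟩ : Fin (d * R₂) ↪ Fin (d * (R₁ + R₂)))]
      refine Finset.card_le_card fun b hb => ?_
      rw [Finset.mem_filter] at hb
      obtain ⟨c, rfl⟩ := (rE d R₁ R₂).surjective b
      rcases c with b₁ | b₂
      · have h := hb.2
        rw [uπ, Equiv.symm_apply_apply, (lE R₁ R₂).injective.eq_iff] at h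
        simp at h
      · refine Finset.mem_map.2 ⟨b₂, Finset.mem_filter.2 ⟨Finset.mem_univ _, ?_⟩, rfl⟩
        have h := hb.2
        rw [uπ, Equiv.symm_apply_apply, (lE R₁ R₂).injective.eq_iff] at h
        exact Sum.inr_injective h

variable (Φ₁ : LabelCover V₁ W₁ d R₁) (Φ₂ : LabelCover V₂ W₂ d R₂)

lemma mem_uni (e₁ : V₁ × W₁) (e₂ : V₂ × W₂) :
    ((e₁.1, e₂.1), (e₁.2, e₂.2)) ∈ (uni Φ₁ Φ₂).E ↔ e₁ ∈ Φ₁.E ∧ e₂ ∈ Φ₂.E := by
  have : ((e₁.1, e₂.1), (e₁.2, e₂.2)) = (eE V₁ W₁ V₂ W₂).toEmbedding (e₁, e₂) := rfl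
  rw [uni, this, Finset.mem_map', Finset.mem_product]

lemma mem_uni' (e : (V₁ × V₂) × (W₁ × W₂)) (he : e ∈ (uni Φ₁ Φ₂).E) :
    (e.1.1, e.2.1) ∈ Φ₁.E ∧ (e.1.2, e.2.2) ∈ Φ₂.E :=
  (mem_uni Φ₁ Φ₂ (e.1.1, e.2.1) (e.1.2, e.2.2)).1 he

lemma uni_nonempty (h1 : Φ₁.E.Nonempty) (h2 : Φ₂.E.Nonempty) : (uni Φ₁ Φ₂).E.Nonempty := by
  obtain ⟨e₁, h1⟩ := h1
  obtain ⟨e₂, h2⟩ := h2
  exact ⟨_, (mem_uni Φ₁ Φ₂ e₁ e₂).2 ⟨h1, h2⟩⟩

lemma uni_pi_inl (e : (V₁ × V₂) × (W₁ × W₂)) (b : Fin (d * R₁)) :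
    (uni Φ₁ Φ₂).π e (rE d R₁ R₂ (Sum.inl b)) = lE R₁ R₂ (Sum.inl (Φ₁.π (e.1.1, e.2.1) b)) := by
  show uπ Φ₁ Φ₂ e _ = _
  rw [uπ, Equiv.symm_apply_apply]
  rfl

lemma uni_pi_inr (e : (V₁ × V₂) × (W₁ × W₂)) (b : Fin (d * R₂)) :
    (uni Φ₁ Φ₂).π e (rE d R₁ R₂ (Sum.inr b)) = lE R₁ R₂ (Sum.inr (Φ₂.π (e.1.2, e.2.2) b)) := by
  show uπ Φ₁ Φ₂ e _ = _
  rw [uπ, Equiv.symm_apply_apply]
  rfl

/-- sums over the right labels of the union -/
lemma sum_rE {M : Type} [AddCommMonoid M] (h : Fin (d * (R₁ + R₂)) → M) :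
    ∑ b, h b = (∑ b, h (rE d R₁ R₂ (Sum.inl b))) + ∑ b, h (rE d R₁ R₂ (Sum.inr b)) := by
  rw [← Equiv.sum_comp (rE d R₁ R₂), Fintype.sum_sum_type]

/-- sums over the left labels of the union -/
lemma sum_lE {M : Type} [AddCommMonoid M] (h : Fin (R₁ + R₂) → M) :
    ∑ b, h b = (∑ b, h (lE R₁ R₂ (Sum.inl b))) + ∑ b, h (lE R₁ R₂ (Sum.inr b)) := by
  rw [← Equiv.sum_comp (lE R₁ R₂), Fintype.sum_sum_type]

/-- the fibre sums of the union -/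
lemma sum_fib_inl {M : Type} [AddCommMonoid M] (h : Fin (d * (R₁ + R₂)) → M)
    (e : (V₁ × V₂) × (W₁ × W₂)) (a : Fin R₁) :
    ∑ b ∈ Finset.univ.filter (fun b => (uni Φ₁ Φ₂).π e b = lE R₁ R₂ (Sum.inl a)), h b =
      ∑ b ∈ Finset.univ.filter (fun b => Φ₁.π (e.1.1, e.2.1) b = a),
        h (rE d R₁ R₂ (Sum.inl b)) := by
  rw [Finset.sum_filter, sum_rE, Finset.sum_filter]
  simp only [uni_pi_inl, uni_pi_inr, (lE R₁ R₂).injective.eq_iff, reduceCtorEq, if_false,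
    Finset.sum_const_zero, add_zero, Sum.inl.injEq]

lemma sum_fib_inr {M : Type} [AddCommMonoid M] (h : Fin (d * (R₁ + R₂)) → M)
    (e : (V₁ × V₂) × (W₁ × W₂)) (a : Fin R₂) :
    ∑ b ∈ Finset.univ.filter (fun b => (uni Φ₁ Φ₂).π e b = lE R₁ R₂ (Sum.inr a)), h b =
      ∑ b ∈ Finset.univ.filter (fun b => Φ₂.π (e.1.2, e.2.2) b = a),
        h (rE d R₁ R₂ (Sum.inr b)) := by
  rw [Finset.sum_filter, sum_rE, Finset.sum_filter]
  simp only [uni_pi_inl, uni_pi_inr, (lE R₁ R₂).injective.eq_iff, reduceCtorEq, if_false,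
    Finset.sum_const_zero, zero_add, Sum.inr.injEq]

/-- integral affine solutions combine -/
def uniAff {t₁ t₂ : ℤ} (A₁ : AffineSolution Φ₁ t₁) (A₂ : AffineSolution Φ₂ t₂) (c₁ c₂ : ℤ) :
    AffineSolution (uni Φ₁ Φ₂) (c₁ * t₁ + c₂ * t₂) where
  x v a := Sum.elim (fun a => c₁ * A₁.x v.1 a) (fun a => c₂ * A₂.x v.2 a) ((lE R₁ R₂).symm a)
  y w b := Sum.elim (fun b => c₁ * A₁.y w.1 b) (fun b => c₂ * A₂.y w.2 b) ((rE d R₁ R₂).symm b)
  sum_x v := by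
    rw [sum_lE]
    simp only [Equiv.symm_apply_apply, Sum.elim_inl, Sum.elim_inr]
    rw [← Finset.mul_sum, ← Finset.mul_sum, A₁.sum_x, A₂.sum_x]
  sum_y w := by
    rw [sum_rE]
    simp only [Equiv.symm_apply_apply, Sum.elim_inl, Sum.elim_inr]
    rw [← Finset.mul_sum, ← Finset.mul_sum, A₁.sum_y, A₂.sum_y]
  edge := by
    intro e he a
    obtain ⟨h1, h2⟩ := mem_uni' Φ₁ Φ₂ e he
    obtain ⟨c, rfl⟩ := (lE R₁ R₂).surjective a
    rcases c with a₁ | a₂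
    · rw [sum_fib_inl]
      simp only [Equiv.symm_apply_apply, Sum.elim_inl]
      rw [← Finset.mul_sum, ← A₁.edge _ h1 a₁]
    · rw [sum_fib_inr]
      simp only [Equiv.symm_apply_apply, Sum.elim_inr]
      rw [← Finset.mul_sum, ← A₂.edge _ h2 a₂]

/-- two vectors side by side -/
def joi (x : EuclideanSpace ℝ (Fin N₁)) (y : EuclideanSpace ℝ (Fin N₂)) :
    EuclideanSpace ℝ (Fin (N₁ + N₂)) :=
  WithLp.toLp 2 (Fin.append (fun i => x i) (fun i => y i))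

lemma inner_joi (x x' : EuclideanSpace ℝ (Fin N₁)) (y y' : EuclideanSpace ℝ (Fin N₂)) :
    ⟪joi x y, joi x' y'⟫ = ⟪x, x'⟫ + ⟪y, y'⟫ := by
  simp only [PiLp.inner_apply, joi]
  rw [Fin.sum_univ_add]
  simp

lemma norm_joi (x : EuclideanSpace ℝ (Fin N₁)) (y : EuclideanSpace ℝ (Fin N₂)) :
    ‖joi x y‖ ^ 2 = ‖x‖ ^ 2 + ‖y‖ ^ 2 := by
  rw [← real_inner_self_eq_norm_sq, inner_joi, real_inner_self_eq_norm_sq,
    real_inner_self_eq_norm_sq]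

lemma joi_add (x x' : EuclideanSpace ℝ (Fin N₁)) (y y' : EuclideanSpace ℝ (Fin N₂)) :
    joi x y + joi x' y' = joi (x + x') (y + y') := by
  ext i
  refine Fin.addCases (fun i => ?_) (fun i => ?_) i <;> simp [joi]

lemma joi_zero : joi (0 : EuclideanSpace ℝ (Fin N₁)) (0 : EuclideanSpace ℝ (Fin N₂)) = 0 := by
  ext i
  refine Fin.addCases (fun i => ?_) (fun i => ?_) i <;> simp [joi]

lemma joi_sum {ι : Type} (s : Finset ι) (x : ι → EuclideanSpace ℝ (Fin N₁))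
    (y : ι → EuclideanSpace ℝ (Fin N₂)) :
    ∑ i ∈ s, joi (x i) (y i) = joi (∑ i ∈ s, x i) (∑ i ∈ s, y i) := by
  induction s using Finset.induction_on with
  | empty => simp [joi_zero]
  | insert a s ha ih => rw [Finset.sum_insert ha, Finset.sum_insert ha, Finset.sum_insert ha, ih,
      joi_add]

/-- `1 / √2` -/
def hh : ℝ := 1 / √2

lemma hh_sq : hh * hh = 1 / 2 := by
  rw [hh, div_mul_div_comm, Real.mul_self_sqrt (by norm_num)]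
  norm_num

lemma hh_ne : hh ≠ 0 := by
  intro h
  have := hh_sq
  rw [h] at this
  norm_num at this

/-- the first part -/
def jl (N₂ : ℕ) (x : EuclideanSpace ℝ (Fin N₁)) : EuclideanSpace ℝ (Fin (N₁ + N₂)) :=
  joi (hh • x) 0

/-- the second part -/
def jr (N₁ : ℕ) (y : EuclideanSpace ℝ (Fin N₂)) : EuclideanSpace ℝ (Fin (N₁ + N₂)) :=
  joi 0 (hh • y)

lemma inner_jl (x x' : EuclideanSpace ℝ (Fin N₁)) : ⟪jl N₂ x, jl N₂ x'⟫ = 1 / 2 * ⟪x, x'⟫ := by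
  rw [jl, jl, inner_joi, inner_zero_left, add_zero, inner_smul_left, inner_smul_right, ← hh_sq]
  simp only [conj_trivial]
  ring

lemma inner_jr (x x' : EuclideanSpace ℝ (Fin N₂)) : ⟪jr N₁ x, jr N₁ x'⟫ = 1 / 2 * ⟪x, x'⟫ := by
  rw [jr, jr, inner_joi, inner_zero_left, zero_add, inner_smul_left, inner_smul_right, ← hh_sq]
  simp only [conj_trivial]
  ring

lemma inner_jl_jr (x : EuclideanSpace ℝ (Fin N₁)) (y : EuclideanSpace ℝ (Fin N₂)) :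
    ⟪jl N₂ x, jr N₁ y⟫ = 0 := by
  rw [jl, jr, inner_joi, inner_zero_left, inner_zero_right, add_zero]

lemma norm_jl (x : EuclideanSpace ℝ (Fin N₁)) : ‖jl N₂ x‖ ^ 2 = 1 / 2 * ‖x‖ ^ 2 := by
  rw [← real_inner_self_eq_norm_sq, inner_jl, real_inner_self_eq_norm_sq]

lemma norm_jr (x : EuclideanSpace ℝ (Fin N₂)) : ‖jr N₁ x‖ ^ 2 = 1 / 2 * ‖x‖ ^ 2 := by
  rw [← real_inner_self_eq_norm_sq, inner_jr, real_inner_self_eq_norm_sq]

lemma jl_ne (x : EuclideanSpace ℝ (Fin N₁)) (hx : x ≠ 0) : jl N₂ x ≠ 0 := by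
  intro h
  have h1 := norm_jl (N₂ := N₂) x
  rw [h, norm_zero] at h1
  have : 0 < ‖x‖ := norm_pos_iff.2 hx
  nlinarith

lemma jr_ne (x : EuclideanSpace ℝ (Fin N₂)) (hx : x ≠ 0) : jr N₁ x ≠ 0 := by
  intro h
  have h1 := norm_jr (N₁ := N₁) x
  rw [h, norm_zero] at h1
  have : 0 < ‖x‖ := norm_pos_iff.2 hx
  nlinarith

/-- solutions of the semidefinite relaxation add up -/
def uniSol (P₁ : PerfectSolution Φ₁ N₁) (P₂ : PerfectSolution Φ₂ N₂) :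
    PerfectSolution (uni Φ₁ Φ₂) (N₁ + N₂) where
  x v a := Sum.elim (fun a => jl N₂ (P₁.x v.1 a)) (fun a => jr N₁ (P₂.x v.2 a))
    ((lE R₁ R₂).symm a)
  y w b := Sum.elim (fun b => jl N₂ (P₁.y w.1 b)) (fun b => jr N₁ (P₂.y w.2 b))
    ((rE d R₁ R₂).symm b)
  orth_x := by
    intro v a a' h
    obtain ⟨c, rfl⟩ := (lE R₁ R₂).surjective a
    obtain ⟨c', rfl⟩ := (lE R₁ R₂).surjective a'
    rcases c with a | a <;> rcases c' with a' | a' <;>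
      simp only [Equiv.symm_apply_apply, Sum.elim_inl, Sum.elim_inr]
    · rw [inner_jl, P₁.orth_x _ _ _ (by rintro rfl; exact h rfl), mul_zero]
    · exact inner_jl_jr _ _
    · rw [real_inner_comm]; exact inner_jl_jr _ _
    · rw [inner_jr, P₂.orth_x _ _ _ (by rintro rfl; exact h rfl), mul_zero]
  orth_y := by
    intro w a a' h
    obtain ⟨c, rfl⟩ := (rE d R₁ R₂).surjective a
    obtain ⟨c', rfl⟩ := (rE d R₁ R₂).surjective a'
    rcases c with a | a <;> rcases c' with a' | a' <;>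
      simp only [Equiv.symm_apply_apply, Sum.elim_inl, Sum.elim_inr]
    · rw [inner_jl, P₁.orth_y _ _ _ (by rintro rfl; exact h rfl), mul_zero]
    · exact inner_jl_jr _ _
    · rw [real_inner_comm]; exact inner_jl_jr _ _
    · rw [inner_jr, P₂.orth_y _ _ _ (by rintro rfl; exact h rfl), mul_zero]
  norm_x := by
    intro v
    rw [sum_lE]
    simp only [Equiv.symm_apply_apply, Sum.elim_inl, Sum.elim_inr, norm_jl, norm_jr]
    rw [← Finset.mul_sum, ← Finset.mul_sum, P₁.norm_x, P₂.norm_x]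
    norm_num
  norm_y := by
    intro w
    rw [sum_rE]
    simp only [Equiv.symm_apply_apply, Sum.elim_inl, Sum.elim_inr, norm_jl, norm_jr]
    rw [← Finset.mul_sum, ← Finset.mul_sum, P₁.norm_y, P₂.norm_y]
    norm_num
  perfect := by
    intro e he
    obtain ⟨h1, h2⟩ := mem_uni' Φ₁ Φ₂ e he
    rw [sum_rE]
    simp only [uni_pi_inl, uni_pi_inr, Equiv.symm_apply_apply, Sum.elim_inl, Sum.elim_inr,
      inner_jl, inner_jr]
    rw [← Finset.mul_sum, ← Finset.mul_sum, P₁.perfect _ h1, P₂.perfect _ h2]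
    norm_num

lemma uniSol_compat (P₁ : PerfectSolution Φ₁ N₁) (P₂ : PerfectSolution Φ₂ N₂) {t₁ t₂ : ℤ}
    (A₁ : AffineSolution Φ₁ t₁) (A₂ : AffineSolution Φ₂ t₂) (c₁ c₂ : ℤ)
    (h1 : Compatible P₁ A₁) (h2 : Compatible P₂ A₂) :
    Compatible (uniSol Φ₁ Φ₂ P₁ P₂) (uniAff Φ₁ Φ₂ A₁ A₂ c₁ c₂) := by
  constructor
  · intro v a
    obtain ⟨c, rfl⟩ := (lE R₁ R₂).surjective a
    rcases c with a | a <;>
      simp only [uniSol, uniAff, Equiv.symm_apply_apply, Sum.elim_inl, Sum.elim_inr]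
    · exact fun h => jl_ne _ (h1.1 _ _ (right_ne_zero_of_mul h))
    · exact fun h => jr_ne _ (h2.1 _ _ (right_ne_zero_of_mul h))
  · intro w a
    obtain ⟨c, rfl⟩ := (rE d R₁ R₂).surjective a
    rcases c with a | a <;>
      simp only [uniSol, uniAff, Equiv.symm_apply_apply, Sum.elim_inl, Sum.elim_inr]
    · exact fun h => jl_ne _ (h1.2 _ _ (right_ne_zero_of_mul h))
    · exact fun h => jr_ne _ (h2.2 _ _ (right_ne_zero_of_mul h))

lemma sum_jl {ι : Type} (s : Finset ι) (x : ι → EuclideanSpace ℝ (Fin N₁)) :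
    ∑ i ∈ s, jl N₂ (x i) = jl N₂ (∑ i ∈ s, x i) := by
  simp only [jl]
  rw [joi_sum, ← Finset.smul_sum, Finset.sum_const_zero]

lemma sum_jr {ι : Type} (s : Finset ι) (x : ι → EuclideanSpace ℝ (Fin N₂)) :
    ∑ i ∈ s, jr N₁ (x i) = jr N₁ (∑ i ∈ s, x i) := by
  simp only [jr]
  rw [joi_sum, ← Finset.smul_sum, Finset.sum_const_zero]

lemma uniSol_common (P₁ : PerfectSolution Φ₁ N₁) (P₂ : PerfectSolution Φ₂ N₂)
    (h1 : P₁.CommonSum) (h2 : P₂.CommonSum) : (uniSol Φ₁ Φ₂ P₁ P₂).CommonSum := by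
  obtain ⟨z₁, hz1, hx1, hy1⟩ := h1
  obtain ⟨z₂, hz2, hx2, hy2⟩ := h2
  refine ⟨jl N₂ z₁ + jr N₁ z₂, ?_, ?_, ?_⟩
  · have h : ‖jl N₂ z₁ + jr N₁ z₂‖ ^ 2 = 1 := by
      rw [← real_inner_self_eq_norm_sq, inner_add_left, inner_add_right, inner_add_right,
        real_inner_comm (jl N₂ z₁) (jr N₁ z₂), inner_jl_jr, inner_jl, inner_jr,
        real_inner_self_eq_norm_sq, real_inner_self_eq_norm_sq, hz1, hz2]
      norm_num
    have h' := norm_nonneg (jl N₂ z₁ + jr N₁ z₂)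
    nlinarith
  · intro v
    rw [sum_lE]
    simp only [uniSol, Equiv.symm_apply_apply, Sum.elim_inl, Sum.elim_inr]
    rw [sum_jl, sum_jr, hx1, hx2]
  · intro w
    rw [sum_rE]
    simp only [uniSol, Equiv.symm_apply_apply, Sum.elim_inl, Sum.elim_inr]
    rw [sum_jl, sum_jr, hy1, hy2]

/-- **The value of the union is at most the sum of the values.** -/
lemma uni_frac (hR1 : 0 < R₁) (hR2 : 0 < R₂) (hd : 0 < d) (v₁ v₂ : ℝ)
    (hv1 : ∀ f g, Φ₁.frac f g ≤ v₁) (hv2 : ∀ f g, Φ₂.frac f g ≤ v₂)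
    (h1 : Φ₁.E.Nonempty) (h2 : Φ₂.E.Nonempty)
    (f : V₁ × V₂ → Fin (R₁ + R₂)) (g : W₁ × W₂ → Fin (d * (R₁ + R₂))) :
    (uni Φ₁ Φ₂).frac f g ≤ v₁ + v₂ := by
  have c1 : (0 : ℝ) < Φ₁.E.card := by exact_mod_cast h1.card_pos
  have c2 : (0 : ℝ) < Φ₂.E.card := by exact_mod_cast h2.card_pos
  -- labellings of the two parts
  set f₁ : V₂ → V₁ → Fin R₁ := fun v₂ v₁ =>
    Sum.elim id (fun _ => ⟨0, hR1⟩) ((lE R₁ R₂).symm (f (v₁, v₂))) with hf1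
  set g₁ : W₂ → W₁ → Fin (d * R₁) := fun w₂ w₁ =>
    Sum.elim id (fun _ => ⟨0, Nat.mul_pos hd hR1⟩) ((rE d R₁ R₂).symm (g (w₁, w₂))) with hg1
  set f₂ : V₁ → V₂ → Fin R₂ := fun v₁ v₂ =>
    Sum.elim (fun _ => ⟨0, hR2⟩) id ((lE R₁ R₂).symm (f (v₁, v₂))) with hf2
  set g₂ : W₁ → W₂ → Fin (d * R₂) := fun w₁ w₂ =>
    Sum.elim (fun _ => ⟨0, Nat.mul_pos hd hR2⟩) id ((rE d R₁ R₂).symm (g (w₁, w₂))) with hg2
  have key : (((uni Φ₁ Φ₂).E.filter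
      (fun e => (uni Φ₁ Φ₂).π e (g e.2) = f e.1)).card : ℝ) ≤
      ∑ e₂ ∈ Φ₂.E, ((Φ₁.E.filter (fun e => Φ₁.π e (g₁ e₂.2 e.2) = f₁ e₂.1 e.1)).card : ℝ) +
      ∑ e₁ ∈ Φ₁.E, ((Φ₂.E.filter (fun e => Φ₂.π e (g₂ e₁.2 e.2) = f₂ e₁.1 e.1)).card : ℝ) := by
    have e1 : ((uni Φ₁ Φ₂).E.filter (fun e => (uni Φ₁ Φ₂).π e (g e.2) = f e.1)).card =
        ∑ e ∈ Φ₁.E ×ˢ Φ₂.E, if (uni Φ₁ Φ₂).π ((e.1.1, e.2.1), (e.1.2, e.2.2))
          (g (e.1.2, e.2.2)) = f (e.1.1, e.2.1) then 1 else 0 := by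
      rw [Finset.card_filter, uni, Finset.sum_map]
      rfl
    rw [e1]
    push_cast
    have e2 : ∑ e₂ ∈ Φ₂.E,
        ((Φ₁.E.filter (fun e => Φ₁.π e (g₁ e₂.2 e.2) = f₁ e₂.1 e.1)).card : ℝ) =
        ∑ e ∈ Φ₁.E ×ˢ Φ₂.E, if Φ₁.π e.1 (g₁ e.2.2 e.1.2) = f₁ e.2.1 e.1.1 then (1 : ℝ) else 0 := by
      rw [Finset.sum_product_right]
      refine Finset.sum_congr rfl fun e₂ _ => ?_
      rw [Finset.card_filter]
      push_cast
      rfl
    have e3 : ∑ e₁ ∈ Φ₁.E,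
        ((Φ₂.E.filter (fun e => Φ₂.π e (g₂ e₁.2 e.2) = f₂ e₁.1 e.1)).card : ℝ) =
        ∑ e ∈ Φ₁.E ×ˢ Φ₂.E, if Φ₂.π e.2 (g₂ e.1.2 e.2.2) = f₂ e.1.1 e.2.1 then (1 : ℝ) else 0 := by
      rw [Finset.sum_product]
      refine Finset.sum_congr rfl fun e₂ _ => ?_
      rw [Finset.card_filter]
      push_cast
      rfl
    rw [e2, e3, ← Finset.sum_add_distrib]
    refine Finset.sum_le_sum fun e _ => ?_
    by_cases hs : (uni Φ₁ Φ₂).π ((e.1.1, e.2.1), (e.1.2, e.2.2)) (g (e.1.2, e.2.2)) =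
        f (e.1.1, e.2.1)
    · rw [if_pos hs]
      obtain ⟨c, hc⟩ := (rE d R₁ R₂).surjective (g (e.1.2, e.2.2))
      rcases c with b | b
      · rw [← hc, uni_pi_inl] at hs
        have h3 : Φ₁.π e.1 (g₁ e.2.2 e.1.2) = f₁ e.2.1 e.1.1 := by
          rw [hg1, hf1]
          simp only
          rw [← hc, ← hs, Equiv.symm_apply_apply, Equiv.symm_apply_apply]
          rfl
        rw [if_pos h3]
        have : (0 : ℝ) ≤ if Φ₂.π e.2 (g₂ e.1.2 e.2.2) = f₂ e.1.1 e.2.1 then (1 : ℝ) else 0 := by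
          split_ifs <;> norm_num
        linarith
      · rw [← hc, uni_pi_inr] at hs
        have h3 : Φ₂.π e.2 (g₂ e.1.2 e.2.2) = f₂ e.1.1 e.2.1 := by
          rw [hg2, hf2]
          simp only
          rw [← hc, ← hs, Equiv.symm_apply_apply, Equiv.symm_apply_apply]
          rfl
        rw [if_pos h3]
        have : (0 : ℝ) ≤ if Φ₁.π e.1 (g₁ e.2.2 e.1.2) = f₁ e.2.1 e.1.1 then (1 : ℝ) else 0 := by
          split_ifs <;> norm_num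
        linarith
    · rw [if_neg hs]
      positivity
  have cE : (((uni Φ₁ Φ₂).E.card : ℕ) : ℝ) = Φ₁.E.card * Φ₂.E.card := by
    rw [uni, Finset.card_map, Finset.card_product]
    push_cast
    rfl
  rw [LabelCover.frac, cE, div_le_iff₀ (by positivity)]
  refine key.trans ?_
  have k1 : ∑ e₂ ∈ Φ₂.E,
      ((Φ₁.E.filter (fun e => Φ₁.π e (g₁ e₂.2 e.2) = f₁ e₂.1 e.1)).card : ℝ) ≤
      ∑ _e₂ ∈ Φ₂.E, v₁ * Φ₁.E.card := by
    refine Finset.sum_le_sum fun e₂ _ => ?_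
    have := hv1 (f₁ e₂.1) (g₁ e₂.2)
    rwa [LabelCover.frac, div_le_iff₀ c1] at this
  have k2 : ∑ e₁ ∈ Φ₁.E,
      ((Φ₂.E.filter (fun e => Φ₂.π e (g₂ e₁.2 e.2) = f₂ e₁.1 e.1)).card : ℝ) ≤
      ∑ _e₁ ∈ Φ₁.E, v₂ * Φ₂.E.card := by
    refine Finset.sum_le_sum fun e₁ _ => ?_
    have := hv2 (f₂ e₁.1) (g₂ e₁.2)
    rwa [LabelCover.frac, div_le_iff₀ c2] at this
  rw [Finset.sum_const, nsmul_eq_mul] at k1 k2
  nlinarith

end

end Pool.Agent.H60.DTO
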