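import Pool.Agent.H60.DTO.Ext
import Pool.Agent.H60.DTO.Union

/-!
Gap instances for the combined semidefinite and affine relaxation: the union of two dihedral
instances over finite fields of coprime orders.
-/

namespace Pool.Agent.H60.DTO

open Finset Pool.Agent.H76.DTO
open scoped Classical

noncomputable section

/-- There is an instance with compatible solutions of the two relaxations and value at most
`v`. -/
def Good (d R : ℕ) (t : ℤ) (v : ℝ) : Prop :=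
  ∃ (V W : Type) (_ : Fintype V) (_ : Fintype W) (Φ : LabelCover V W d R) (N : ℕ)
    (P : PerfectSolution Φ N) (A : AffineSolution Φ t), Φ.E.Nonempty ∧ P.CommonSum ∧
    Compatible P A ∧ ∀ f g, Φ.frac f g ≤ v

lemma Good.union {d R₁ R₂ : ℕ} {t₁ t₂ : ℤ} {v₁ v₂ : ℝ} (hd : 0 < d) (hR1 : 0 < R₁) (hR2 : 0 < R₂)
    (h1 : Good d R₁ t₁ v₁) (h2 : Good d R₂ t₂ v₂) (c₁ c₂ : ℤ) :
    Good d (R₁ + R₂) (c₁ * t₁ + c₂ * t₂) (v₁ + v₂) := by
  obtain ⟨V₁, W₁, _, _, Φ₁, N₁, P₁, a1, e1, s1, f1, b1⟩ := h1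
  obtain ⟨V₂, W₂, _, _, Φ₂, N₂, P₂, a2, e2, s2, f2, b2⟩ := h2
  exact ⟨V₁ × V₂, W₁ × W₂, inferInstance, inferInstance, uni Φ₁ Φ₂, N₁ + N₂, uniSol Φ₁ Φ₂ P₁ P₂,
    uniAff Φ₁ Φ₂ a1 a2 c₁ c₂, uni_nonempty Φ₁ Φ₂ e1 e2, uniSol_common Φ₁ Φ₂ P₁ P₂ s1 s2,
    uniSol_compat Φ₁ Φ₂ P₁ P₂ a1 a2 c₁ c₂ f1 f2, uni_frac Φ₁ Φ₂ hR1 hR2 hd v₁ v₂ b1 b2 e1 e2⟩

/-- the exponent -/
def cexp (d q : ℝ) : ℝ := Real.log d / (4 * Real.log (5 / 2 * q))

lemma cexp_pos (d q : ℝ) (hd : 2 ≤ d) (hq : 2 ≤ q) : 0 < cexp d q := by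
  have h1 : 0 < Real.log d := Real.log_pos (by linarith)
  have h2 : 0 < Real.log (5 / 2 * q) := Real.log_pos (by linarith)
  rw [cexp]
  positivity

lemma choose_D (d q : ℝ) (hd : 2 ≤ d) (hq : 2 ≤ q) (k : ℕ) :
    ∃ D₀ : ℕ, (5 / 2 * q) ^ D₀ ≤ √(q ^ k) ∧
      3 * d * (d ^ D₀)⁻¹ ≤ (2 * d * (q ^ k) ^ (-(cexp d q))) ^ 2 := by
  have hL : 0 < Real.log (5 / 2 * q) := Real.log_pos (by linarith)
  have hd0 : 0 < d := by linarith
  have hq0 : 0 < q := by linarith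
  have hld : 0 < Real.log d := Real.log_pos (by linarith)
  have hlq : 0 < Real.log q := Real.log_pos (by linarith)
  set L := Real.log (5 / 2 * q) with hLd
  set x : ℝ := k * Real.log q / (2 * L) with hx
  have hx0 : 0 ≤ x := by positivity
  refine ⟨⌊x⌋₊, ?_, ?_⟩
  · have h1 : ((⌊x⌋₊ : ℕ) : ℝ) ≤ x := Nat.floor_le hx0
    rw [← Real.rpow_natCast, Real.sqrt_eq_rpow, ← Real.rpow_natCast, ← Real.rpow_mul hq0.le,
      Real.rpow_def_of_pos (by positivity), Real.rpow_def_of_pos hq0]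
    refine Real.exp_le_exp.2 ?_
    rw [← hLd]
    calc L * ((⌊x⌋₊ : ℕ) : ℝ) ≤ L * x := by gcongr
      _ = Real.log q * (k * (1 / 2)) := by rw [hx]; field_simp
  · have h1 : x < (⌊x⌋₊ : ℝ) + 1 := Nat.lt_floor_add_one x
    have h2 : d ^ x ≤ d ^ (⌊x⌋₊ + 1) := by
      rw [← Real.rpow_natCast]
      refine Real.rpow_le_rpow_of_exponent_le (by linarith) ?_
      push_cast
      linarith
    have h3 : d ^ x = (q ^ k) ^ (2 * cexp d q) := by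
      rw [← Real.rpow_natCast q k, ← Real.rpow_mul hq0.le, Real.rpow_def_of_pos hd0,
        Real.rpow_def_of_pos hq0, hx, cexp]
      congr 1
      rw [← hLd]
      field_simp
      ring
    have h4 : (2 * d * (q ^ k) ^ (-(cexp d q))) ^ 2 = 4 * d ^ 2 * (d ^ x)⁻¹ := by
      rw [h3, mul_pow, ← Real.rpow_natCast ((q ^ k) ^ (-(cexp d q))) 2, ← Real.rpow_mul (by positivity),
        ← Real.rpow_neg (by positivity)]
      have : -cexp d q * ((2 : ℕ) : ℝ) = -(2 * cexp d q) := by push_cast; ring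
      rw [this]
      ring
    rw [h4]
    have h5 : 0 < d ^ x := Real.rpow_pos_of_pos hd0 _
    have h6 : (d ^ (⌊x⌋₊ + 1))⁻¹ ≤ (d ^ x)⁻¹ := inv_anti₀ h5 h2
    have h7 : (d ^ ⌊x⌋₊)⁻¹ = d * (d ^ (⌊x⌋₊ + 1))⁻¹ := by
      rw [pow_succ]
      field_simp
    rw [h7]
    have h8 : 0 < (d ^ x)⁻¹ := inv_pos.2 h5
    calc 3 * d * (d * (d ^ (⌊x⌋₊ + 1))⁻¹) = 3 * d ^ 2 * (d ^ (⌊x⌋₊ + 1))⁻¹ := by ring
      _ ≤ 3 * d ^ 2 * (d ^ x)⁻¹ := by gcongr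
      _ ≤ 4 * d ^ 2 * (d ^ x)⁻¹ := by gcongr; norm_num

lemma good_dext (F : Type) [Field F] [Fintype F] (S : Subgroup Fˣ) (hS : 2 ≤ Fintype.card S)
    (k m : ℕ) :
    Good (Fintype.card S + m) (Fintype.card (AA F k)) (Fintype.card (AA F k))
      (2 * (Fintype.card S : ℝ) * ((Fintype.card F : ℝ) ^ k) ^
        (-(cexp (Fintype.card S) (Fintype.card F)))) := by
  have hq : 1 < Fintype.card F := Fintype.one_lt_card
  have hq2 : (2 : ℝ) ≤ (Fintype.card F : ℝ) := by exact_mod_cast hq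
  have hd2 : (2 : ℝ) ≤ (Fintype.card S : ℝ) := by exact_mod_cast hS
  set ψ : AddChar F ℂ := AddChar.FiniteField.primitiveChar_to_Complex F with hψd
  have hψ : ψ.IsPrimitive := AddChar.FiniteField.primitiveChar_to_Complex_isPrimitive F
  refine ⟨VV F k, WW S k, inferInstance, inferInstance, dext S k m, _,
    extSol _ _ _ (dsol S ψ hψ), extAff _ _ _ (daff S k), ?_,
    extSol_common _ _ _ _ (dsol_common S ψ hψ), ext_compat _ _ _ _ (dsol_full S ψ hψ) _, ?_⟩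
  · obtain ⟨T, hT⟩ := exists_edge S (0 : VV F k)
    exact ⟨_, hT⟩
  · intro f g
    obtain ⟨D₀, h1, h2⟩ := choose_D (Fintype.card S) (Fintype.card F) hd2 hq2 k
    have hA : (Fintype.card (AA F k) : ℝ) = (Fintype.card F : ℝ) ^ k := by
      rw [Fintype.card_fun, Fintype.card_fin]; push_cast; rfl
    have h3 := dext_frac S m D₀ (by rw [hA]; exact h1) f g
    exact (le_abs_self _).trans (abs_le_of_sq_le_sq (h3.trans h2) (by positivity))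

lemma exists_subgroup (F : Type) [Field F] [Fintype F] (d : ℕ)
    (h : d ∣ Fintype.card F - 1) : ∃ S : Subgroup Fˣ, Fintype.card S = d := by
  obtain ⟨g, hg⟩ := IsCyclic.exists_generator (α := Fˣ)
  have h1 : orderOf g = Fintype.card F - 1 := by
    rw [orderOf_eq_card_of_forall_mem_zpowers hg, Nat.card_eq_fintype_card, Fintype.card_units]
  obtain ⟨m, hm⟩ := h
  have hq : 1 < Fintype.card F := Fintype.one_lt_card
  have hm0 : m ≠ 0 := by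
    rintro rfl
    omega
  refine ⟨Subgroup.zpowers (g ^ m), ?_⟩
  rw [← Nat.card_eq_fintype_card, Nat.card_zpowers, orderOf_pow_of_dvd hm0 ⟨d, by rw [h1, hm, mul_comm]⟩,
    h1, hm, Nat.mul_div_cancel _ (Nat.pos_of_ne_zero hm0)]

/-- One part, over a field of prime order, with the group of order two. -/
lemma good_prime (r : ℕ) (hr : r.Prime) (h2 : 2 ∣ r - 1) (m k : ℕ) :
    Good (2 + m) (r ^ k) ((r ^ k : ℕ) : ℤ)
      (4 * ((r : ℝ) ^ k) ^ (-(cexp 2 (r : ℝ)))) := by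
  have : Fact r.Prime := ⟨hr⟩
  have hcard : Fintype.card (ZMod r) = r := ZMod.card r
  obtain ⟨S, hS⟩ := exists_subgroup (ZMod r) 2 (by rw [hcard]; exact h2)
  have h3 := good_dext (ZMod r) S (by omega) k m
  have h4 : Fintype.card (AA (ZMod r) k) = r ^ k := by
    rw [Fintype.card_fun, Fintype.card_fin, hcard]
  rw [hS, h4, hcard] at h3
  have h5 : (2 : ℝ) * ((2 : ℕ) : ℝ) = 4 := by norm_num
  rw [h5] at h3
  exact_mod_cast h3

lemma cexp_bound (q : ℝ) (hq : 2 ≤ q) (h : (5 / 2 * q) ^ 4 ≤ 2 ^ 15) : 1 / 15 ≤ cexp 2 q := by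
  have hL : 0 < Real.log (5 / 2 * q) := Real.log_pos (by linarith)
  have h1 : 4 * Real.log (5 / 2 * q) ≤ 15 * Real.log 2 := by
    have := Real.log_le_log (by positivity) h
    rwa [Real.log_pow, Real.log_pow] at this
  rw [cexp, div_le_div_iff₀ (by norm_num) (by positivity)]
  linarith

/-- **Gap instances for the combined relaxation.** -/
theorem gap (d n : ℕ) (hd : 2 ≤ d) (hn : 0 < n) : ∃ R : ℕ,
    n ≤ R ∧ R ≤ 8 * n ∧ Good d R 1 (10 * (R : ℝ) ^ (-(1 / 15) : ℝ)) := by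
  set a := Nat.log 3 n + 1 with ha
  set b := Nat.log 5 n + 1 with hb
  have ha1 : n < 3 ^ a := Nat.lt_pow_succ_log_self (by omega) n
  have hb1 : n < 5 ^ b := Nat.lt_pow_succ_log_self (by omega) n
  have ha2 : 3 ^ a ≤ 3 * n := by
    rw [ha, pow_succ, mul_comm]
    exact Nat.mul_le_mul_left _ (Nat.pow_log_le_self 3 hn.ne')
  have hb2 : 5 ^ b ≤ 5 * n := by
    rw [hb, pow_succ, mul_comm]
    exact Nat.mul_le_mul_left _ (Nat.pow_log_le_self 5 hn.ne')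
  refine ⟨3 ^ a + 5 ^ b, by omega, by omega, ?_⟩
  obtain ⟨m, rfl⟩ := Nat.exists_eq_add_of_le hd
  have g1 := good_prime 3 Nat.prime_three (by norm_num) m a
  have g2 := good_prime 5 Nat.prime_five (by norm_num) m b
  have hcop : IsCoprime ((3 ^ a : ℕ) : ℤ) ((5 ^ b : ℕ) : ℤ) :=
    Nat.isCoprime_iff_coprime.2 (Nat.Coprime.pow _ _ (by norm_num))
  obtain ⟨x, y, hxy⟩ := hcop
  have g := Good.union (by omega) (Nat.pow_pos (by norm_num)) (Nat.pow_pos (by norm_num)) g1 g2 x y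
  rw [hxy] at g
  obtain ⟨V, W, hV, hW, Φ, N, P, A, h1, h2, h3, h4⟩ := g
  refine ⟨V, W, hV, hW, Φ, N, P, A, h1, h2, h3, fun f g => (h4 f g).trans ?_⟩
  have hn0 : (0 : ℝ) < n := by exact_mod_cast hn
  have hn1 : (1 : ℝ) ≤ n := by exact_mod_cast hn
  have ha3 : (n : ℝ) ≤ (3 : ℝ) ^ a := by exact_mod_cast ha1.le
  have hb3 : (n : ℝ) ≤ (5 : ℝ) ^ b := by exact_mod_cast hb1.le
  have e0 : ∀ (Q c : ℝ), (n : ℝ) ≤ Q → 1 / 15 ≤ c → Q ^ (-c) ≤ (n : ℝ) ^ (-(1 / 15) : ℝ) := by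
    intro Q c hQ hc
    calc Q ^ (-c) ≤ Q ^ (-(1 / 15) : ℝ) :=
          Real.rpow_le_rpow_of_exponent_le (by linarith) (by linarith)
      _ ≤ (n : ℝ) ^ (-(1 / 15) : ℝ) :=
          Real.rpow_le_rpow_of_nonpos hn0 hQ (by norm_num)
  have e1 := e0 _ _ ha3 (cexp_bound 3 (by norm_num) (by norm_num))
  have e2 := e0 _ _ hb3 (cexp_bound 5 (by norm_num) (by norm_num))
  have hR0 : (0 : ℝ) < ((3 ^ a + 5 ^ b : ℕ) : ℝ) := by
    have : 0 < 3 ^ a + 5 ^ b := by omega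
    exact_mod_cast this
  have hR8 : ((3 ^ a + 5 ^ b : ℕ) : ℝ) / 8 ≤ n := by
    have : 3 ^ a + 5 ^ b ≤ 8 * n := by omega
    have h' : ((3 ^ a + 5 ^ b : ℕ) : ℝ) ≤ ((8 * n : ℕ) : ℝ) := by exact_mod_cast this
    push_cast at h' ⊢
    linarith
  have e3 : (n : ℝ) ^ (-(1 / 15) : ℝ) ≤
      5 / 4 * ((3 ^ a + 5 ^ b : ℕ) : ℝ) ^ (-(1 / 15) : ℝ) := by
    calc (n : ℝ) ^ (-(1 / 15) : ℝ) ≤ (((3 ^ a + 5 ^ b : ℕ) : ℝ) / 8) ^ (-(1 / 15) : ℝ) :=
          Real.rpow_le_rpow_of_nonpos (by positivity) hR8 (by norm_num)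
      _ = (8 : ℝ) ^ (1 / 15 : ℝ) * ((3 ^ a + 5 ^ b : ℕ) : ℝ) ^ (-(1 / 15) : ℝ) := by
          rw [Real.div_rpow hR0.le (by norm_num), Real.rpow_neg (by norm_num : (0 : ℝ) ≤ 8)]
          field_simp
      _ ≤ 5 / 4 * ((3 ^ a + 5 ^ b : ℕ) : ℝ) ^ (-(1 / 15) : ℝ) := by
          refine mul_le_mul_of_nonneg_right ?_ (Real.rpow_nonneg hR0.le _)
          have h8 : (8 : ℝ) ≤ (5 / 4) ^ 15 := by norm_num
          calc (8 : ℝ) ^ (1 / 15 : ℝ) ≤ ((5 / 4 : ℝ) ^ 15) ^ (1 / 15 : ℝ) :=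
                Real.rpow_le_rpow (by norm_num) h8 (by norm_num)
            _ = 5 / 4 := by
                rw [← Real.rpow_natCast, ← Real.rpow_mul (by norm_num)]
                norm_num
  calc 4 * (((3 : ℕ) : ℝ) ^ a) ^ (-(cexp 2 ((3 : ℕ) : ℝ))) +
      4 * (((5 : ℕ) : ℝ) ^ b) ^ (-(cexp 2 ((5 : ℕ) : ℝ)))
      ≤ 4 * (n : ℝ) ^ (-(1 / 15) : ℝ) + 4 * (n : ℝ) ^ (-(1 / 15) : ℝ) := by
        push_cast
        linarith
    _ = 8 * (n : ℝ) ^ (-(1 / 15) : ℝ) := by ring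
    _ ≤ 8 * (5 / 4 * ((3 ^ a + 5 ^ b : ℕ) : ℝ) ^ (-(1 / 15) : ℝ)) := by linarith
    _ = 10 * ((3 ^ a + 5 ^ b : ℕ) : ℝ) ^ (-(1 / 15) : ℝ) := by ring

end

end Pool.Agent.H60.DTO
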