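import Pool.Agent.H60.DTO.Code

/-!
The dihedral gap instances: `F` a finite field, `S` a subgroup of order `d` of its units,
`A = F ^ k`. The right vertices are families of affine maps `T i z = g i + o i * z` with `o i` in
`S`, indexed by the vectors `pt i` of `A`; the left vertices are functions `f`; an edge is
`f i = T i (pt i . y)` for a vector `y`, and the right label `x` is mapped to the class of `x - y`
under the action of `S`.
-/

namespace Pool.Agent.H60.DTO

open Finset Module Pool.Agent.H76.DTO Pool.Agent.H25.DTO Pool.Agent.H18.DTO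
open scoped Classical

noncomputable section

set_option linter.unusedSectionVars false

/-- the vector space of the labels -/
abbrev AA (F : Type) (k : ℕ) : Type := Fin k → F

/-- the number of coordinates -/
abbrev nn (F : Type) [Fintype F] (k : ℕ) : ℕ := Fintype.card (AA F k)

/-- the points -/
def pt (F : Type) [Fintype F] (k : ℕ) : Fin (nn F k) ≃ AA F k :=
  (Fintype.equivFin (AA F k)).symm

variable {F : Type} [Field F] [Fintype F] {k : ℕ} (S : Subgroup Fˣ)

/-- an element of the group as a scalar -/
def sc (s : S) : F := ((s : Fˣ) : F)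

lemma sc_ne (s : S) : sc S s ≠ 0 := Units.ne_zero _

lemma sc_mul (s t : S) : sc S (s * t) = sc S s * sc S t := by simp [sc]

lemma sc_one : sc S (1 : S) = 1 := by simp [sc]

lemma sc_inv (s : S) : sc S s⁻¹ * sc S s = 1 := by
  rw [← sc_mul, inv_mul_cancel, sc_one]

lemma sc_inj : Function.Injective (sc S) := fun _ _ h => Subtype.ext (Units.ext h)

/-- the code of an orientation -/
def code (o : Fin (nn F k) → S) : AA F k →ₗ[F] (Fin (nn F k) → F) where
  toFun x := fun i => sc S (o i) * dot (pt F k i) x
  map_add' x y := by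
    funext i
    simp only [Pi.add_apply]
    rw [dot_add]
    ring
  map_smul' c x := by
    funext i
    simp only [Pi.smul_apply, smul_eq_mul, RingHom.id_apply]
    rw [dot_smul]
    ring

lemma code_apply (o : Fin (nn F k) → S) (x : AA F k) (i : Fin (nn F k)) :
    code S o x i = sc S (o i) * dot (pt F k i) x := rfl

lemma code_injective (o : Fin (nn F k) → S) : Function.Injective (code S o) := by
  rw [← LinearMap.ker_eq_bot, LinearMap.ker_eq_bot']
  intro x hx
  funext j
  have h1 := congrFun hx ((pt F k).symm (Pi.single j 1))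
  rw [code_apply, Equiv.apply_symm_apply] at h1
  have h2 : dot (Pi.single j (1 : F)) x = x j := by
    rw [dot, Finset.sum_eq_single j]
    · simp
    · intro i _ hi
      simp [hi]
    · intro h
      exact absurd (Finset.mem_univ _) h
  rw [h2] at h1
  exact (mul_eq_zero.1 h1).resolve_left (sc_ne S _)

/-- the orbit relation -/
def Rel (u v : AA F k) : Prop := ∃ s : S, v = sc S s • u

lemma Rel.refl (u : AA F k) : Rel S u u := ⟨1, by rw [sc_one, one_smul]⟩

lemma Rel.symm {u v : AA F k} (h : Rel S u v) : Rel S v u := by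
  obtain ⟨s, rfl⟩ := h
  exact ⟨s⁻¹, by rw [smul_smul, sc_inv, one_smul]⟩

lemma Rel.trans {u v w : AA F k} (h : Rel S u v) (h' : Rel S v w) : Rel S u w := by
  obtain ⟨s, rfl⟩ := h
  obtain ⟨t, rfl⟩ := h'
  exact ⟨t * s, by rw [smul_smul, sc_mul]⟩

/-- the orbits -/
def orbS : Setoid (AA F k) where
  r := Rel S
  iseqv := ⟨Rel.refl S, fun h => Rel.symm S h, fun h h' => Rel.trans S h h'⟩

/-- the representative of an orbit -/
def rep (u : AA F k) : AA F k := Quotient.out (Quotient.mk (orbS S) u)

lemma rel_rep (u : AA F k) : Rel S (rep S u) u :=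
  Quotient.exact (Quotient.out_eq (Quotient.mk (orbS S) u))

lemma rep_eq {u v : AA F k} (h : Rel S u v) : rep S u = rep S v := by
  rw [rep, rep]
  congr 1
  exact Quotient.sound h

lemma rep_smul (s : S) (u : AA F k) : rep S (sc S s • u) = rep S u :=
  (rep_eq S ⟨s, rfl⟩).symm

lemma rep_rep (u : AA F k) : rep S (rep S u) = rep S u := rep_eq S (rel_rep S u)

/-- the class map -/
def gam (p : AA F k × S) : AA F k := sc S p.2 • rep S p.1

lemma rel_gam (p : AA F k × S) : Rel S (gam S p) p.1 :=
  Rel.trans S (Rel.symm S ⟨p.2, rfl⟩) (rel_rep S p.1)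

lemma rep_gam (p : AA F k × S) : rep S (gam S p) = rep S p.1 := rep_eq S (rel_gam S p)

/-- every class has at most `d` elements -/
lemma card_gam (a : AA F k) :
    (Finset.univ.filter (fun p : AA F k × S => gam S p = a)).card ≤ Fintype.card S := by
  rw [← Finset.card_univ]
  by_cases ha : a = 0
  · subst ha
    refine Finset.card_le_card_of_injOn (fun p => p.2) (fun p _ => Finset.mem_univ _) ?_
    intro p hp p' hp' h
    have h1 : ∀ p : AA F k × S, gam S p = 0 → p.1 = 0 := by
      intro p hp
      obtain ⟨s, hs⟩ := rel_gam S p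
      rw [hs, hp, smul_zero]
    have e1 := h1 p (by simpa using hp)
    have e2 := h1 p' (by simpa using hp')
    exact Prod.ext (e1.trans e2.symm) h
  · -- `x = s • rep a` for a unique `s`
    have h1 : ∀ p : AA F k × S, gam S p = a → ∃ s : S, p.1 = sc S s • rep S a := by
      intro p hp
      obtain ⟨s, hs⟩ := Rel.trans S (rel_rep S (gam S p)) (rel_gam S p)
      exact ⟨s, by rw [← hp]; exact hs⟩
    choose! φ hφ using h1
    refine Finset.card_le_card_of_injOn φ (fun p _ => Finset.mem_univ _) ?_
    intro p hp p' hp' h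
    have hp1 : gam S p = a := by simpa using hp
    have hp2 : gam S p' = a := by simpa using hp'
    have e1 : p.1 = p'.1 := by rw [hφ p hp1, hφ p' hp2, h]
    have e2 : rep S p.1 ≠ 0 := by
      intro h0
      apply ha
      rw [← hp1, gam, h0, smul_zero]
    have e3 : sc S p.2 • rep S p.1 = sc S p'.2 • rep S p.1 := by
      have := hp1.trans hp2.symm
      rw [gam, gam, ← e1] at this
      exact this
    exact Prod.ext e1 (sc_inj S (smul_left_injective F e2 e3))

/-- the left vertices -/
abbrev VV (F : Type) [Fintype F] (k : ℕ) : Type := Fin (nn F k) → F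

/-- the right vertices -/
abbrev WW (S : Subgroup Fˣ) (k : ℕ) : Type := (Fin (nn F k) → F) × (Fin (nn F k) → S)

/-- the value of the affine maps -/
def evT (T : WW S k) (y : AA F k) : VV F k := T.1 + code S T.2 y

/-- the vector of an edge -/
def yy (f : VV F k) (T : WW S k) : AA F k :=
  if h : ∃ y, f = evT S T y then h.choose else 0

lemma yy_spec (T : WW S k) (y : AA F k) : yy S (evT S T y) T = y := by
  have h : ∃ y', evT S T y = evT S T y' := ⟨y, rfl⟩
  rw [yy, dif_pos h]
  have h1 := h.choose_spec
  simp only [evT] at h1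
  exact (code_injective S T.2 (add_left_cancel h1)).symm

/-- the right labels -/
def labW (S : Subgroup Fˣ) (k : ℕ) :
    Fin (Fintype.card S * Fintype.card (AA F k)) ≃ AA F k × S :=
  (Fintype.equivFinOfCardEq (by rw [Fintype.card_prod, mul_comm])).symm

/-- the left labels -/
def labV (F : Type) [Fintype F] (k : ℕ) : Fin (Fintype.card (AA F k)) ≃ AA F k :=
  (Fintype.equivFin (AA F k)).symm

/-- the edges -/
def edg (S : Subgroup Fˣ) (k : ℕ) : Finset (VV F k × WW S k) :=
  (Finset.univ : Finset (WW S k × AA F k)).image (fun p => (evT S p.1 p.2, p.1))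

lemma mem_edg {e : VV F k × WW S k} : e ∈ edg S k ↔ ∃ y, e.1 = evT S e.2 y := by
  rw [edg, Finset.mem_image]
  constructor
  · rintro ⟨p, _, rfl⟩
    exact ⟨p.2, rfl⟩
  · rintro ⟨y, hy⟩
    exact ⟨(e.2, y), Finset.mem_univ _, Prod.ext hy.symm rfl⟩

lemma edg_inj : Function.Injective (fun p : WW S k × AA F k => (evT S p.1 p.2, p.1)) := by
  rintro ⟨T, y⟩ ⟨T', y'⟩ h
  have h1 : T = T' := congrArg Prod.snd h
  subst h1
  have h2 : evT S T y = evT S T y' := congrArg Prod.fst h
  have h3 := yy_spec S T y
  rw [h2, yy_spec S T y'] at h3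
  rw [h3]

/-- **The dihedral instance.** -/
def dinst (S : Subgroup Fˣ) (k : ℕ) :
    LabelCover (VV F k) (WW S k) (Fintype.card S) (Fintype.card (AA F k)) where
  E := edg S k
  π e b := (labV F k).symm (gam S ((labW S k b).1 - yy S e.1 e.2, (labW S k b).2))
  dto1 := by
    intro e _ a
    refine le_trans ?_ (card_gam S (labV F k a))
    refine Finset.card_le_card_of_injOn
      (fun b => ((labW S k b).1 - yy S e.1 e.2, (labW S k b).2)) ?_ ?_
    · intro b hb
      have h1 := (Finset.mem_filter.1 hb).2
      rw [Finset.mem_coe, Finset.mem_filter]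
      exact ⟨Finset.mem_univ _, by rw [← h1, Equiv.apply_symm_apply]⟩
    · intro b _ b' _ h
      apply (labW S k).injective
      obtain ⟨h1, h2⟩ := Prod.mk.inj h
      exact Prod.ext (sub_left_injective h1) h2

lemma dinst_pi (T : WW S k) (y : AA F k) (b : Fin (Fintype.card S * Fintype.card (AA F k))) :
    (dinst S k).π (evT S T y, T) b =
      (labV F k).symm (gam S ((labW S k b).1 - y, (labW S k b).2)) := by
  simp only [dinst]
  rw [yy_spec]

lemma card_edg : (edg S k).card =
    (Fintype.card F ^ nn F k * Fintype.card S ^ nn F k) * Fintype.card (AA F k) := by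
  rw [edg, Finset.card_image_of_injective _ (edg_inj S), Finset.card_univ, Fintype.card_prod,
    Fintype.card_prod, Fintype.card_fun, Fintype.card_fun, Fintype.card_fin]

end

end Pool.Agent.H60.DTO
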