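import Pool.Agent.H60.DTO.Snd
import Pool.Agent.H60.DTO.AffDefs

/-!
The perfect solution of the basic semidefinite relaxation of the dihedral instances, and their
integral affine solutions of total weight `|F| ^ k`.
-/

namespace Pool.Agent.H60.DTO

open Finset Module Pool.Agent.H76.DTO Pool.Agent.H25.DTO Pool.Agent.H18.DTO
open scoped Classical RealInnerProductSpace

noncomputable section

set_option linter.unusedSectionVars false

/-- A solution of the basic semidefinite relaxation gives positive weight to all labels. -/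
def Full {V W : Type} {d R N : ℕ} {Φ : LabelCover V W d R} (S : PerfectSolution Φ N) : Prop :=
  (∀ v a, S.x v a ≠ 0) ∧ (∀ w b, S.y w b ≠ 0)

section Generic

variable {V W : Type} {d R N : ℕ} (Φ : LabelCover V W d R)

/-- all fibres are nonempty -/
lemma fib_nonempty (hd : 0 < d) (e : V × W) (he : e ∈ Φ.E) (a : Fin R) : ∃ b, Φ.π e b = a := by
  by_contra hc
  push Not at hc
  have h1 : (Finset.univ : Finset (Fin (d * R))).card ≤
      d * (Finset.univ.erase a).card := by
    refine Finset.card_le_mul_card_image_of_maps_to (f := Φ.π e) (fun b _ => ?_) d ?_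
    · exact Finset.mem_erase.2 ⟨hc b, Finset.mem_univ _⟩
    · intro c _
      exact Φ.dto1 e he c
  rw [Finset.card_erase_of_mem (Finset.mem_univ _), Finset.card_univ, Finset.card_univ,
    Fintype.card_fin, Fintype.card_fin] at h1
  have h2 : 0 < R := Nat.pos_of_ne_zero (by rintro rfl; exact a.elim0)
  have h3 := Nat.le_of_mul_le_mul_left h1 hd
  omega

/-- a perfect solution from orthogonal vectors of equal lengths on the right -/
def mkSol (x : V → Fin R → EuclideanSpace ℝ (Fin N)) (y : W → Fin (d * R) → EuclideanSpace ℝ (Fin N))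
    (hR : 0 < d * R)
    (hy : ∀ w b b', ⟪y w b, y w b'⟫ = if b = b' then 1 / ((d * R : ℕ) : ℝ) else 0)
    (hv : ∀ v, ∃ w, (v, w) ∈ Φ.E)
    (hx : ∀ e ∈ Φ.E, ∀ a, x e.1 a =
      ∑ b ∈ Finset.univ.filter (fun b => Φ.π e b = a), y e.2 b) :
    PerfectSolution Φ N := by
  have hsum : ∑ _b : Fin (d * R), 1 / ((d * R : ℕ) : ℝ) = 1 := by
    rw [Finset.sum_const, Finset.card_univ, Fintype.card_fin, nsmul_eq_mul]
    have : ((d * R : ℕ) : ℝ) ≠ 0 := by exact_mod_cast hR.ne'
    field_simp
  exact
  { x := x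
    y := y
    orth_x := by
      intro v a a' h
      obtain ⟨w, hw⟩ := hv v
      rw [hx (v, w) hw a, hx (v, w) hw a', sum_inner]
      refine Finset.sum_eq_zero fun b hb => ?_
      rw [inner_sum]
      refine Finset.sum_eq_zero fun b' hb' => ?_
      rw [hy, if_neg]
      rintro rfl
      exact h ((Finset.mem_filter.1 hb).2.symm.trans (Finset.mem_filter.1 hb').2)
    orth_y := by
      intro w b b' h
      rw [hy, if_neg h]
    norm_x := by
      intro v
      obtain ⟨w, hw⟩ := hv v
      rw [← hsum, ← Finset.sum_fiberwise Finset.univ (fun b => Φ.π (v, w) b)]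
      refine Finset.sum_congr rfl fun a _ => ?_
      rw [hx (v, w) hw a, ← real_inner_self_eq_norm_sq, sum_inner]
      refine Finset.sum_congr rfl fun b hb => ?_
      rw [inner_sum, Finset.sum_eq_single b]
      · rw [hy, if_pos rfl]
      · intro b' _ hne; rw [hy, if_neg (Ne.symm hne)]
      · intro h; exact absurd hb h
    norm_y := by
      intro w
      rw [← hsum]
      refine Finset.sum_congr rfl fun b _ => ?_
      rw [← real_inner_self_eq_norm_sq, hy, if_pos rfl]
    perfect := by
      intro e he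
      rw [← hsum]
      refine Finset.sum_congr rfl fun b _ => ?_
      rw [hx e he, sum_inner, Finset.sum_eq_single b]
      · rw [hy, if_pos rfl]
      · intro b' _ hne; rw [hy, if_neg hne]
      · intro h
        exact absurd (Finset.mem_filter.2 ⟨Finset.mem_univ b, rfl⟩ :
          b ∈ Finset.univ.filter (fun b' => Φ.π e b' = Φ.π e b)) h }

lemma mkSol_full (x : V → Fin R → EuclideanSpace ℝ (Fin N))
    (y : W → Fin (d * R) → EuclideanSpace ℝ (Fin N)) (hd : 0 < d)
    (hR : 0 < d * R)
    (hy : ∀ w b b', ⟪y w b, y w b'⟫ = if b = b' then 1 / ((d * R : ℕ) : ℝ) else 0)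
    (hv : ∀ v, ∃ w, (v, w) ∈ Φ.E)
    (hx : ∀ e ∈ Φ.E, ∀ a, x e.1 a =
      ∑ b ∈ Finset.univ.filter (fun b => Φ.π e b = a), y e.2 b) :
    Full (mkSol Φ x y hR hy hv hx) := by
  have hR' : (0 : ℝ) < ((d * R : ℕ) : ℝ) := by exact_mod_cast hR
  have hpos : (0 : ℝ) < 1 / ((d * R : ℕ) : ℝ) := by positivity
  constructor
  · intro v a h0
    obtain ⟨w, hw⟩ := hv v
    obtain ⟨b, hb⟩ := fib_nonempty Φ hd (v, w) hw a
    have h1 : ⟪x v a, y w b⟫ = 1 / ((d * R : ℕ) : ℝ) := by
      rw [hx (v, w) hw a, sum_inner, Finset.sum_eq_single b]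
      · rw [hy, if_pos rfl]
      · intro b' _ hne; rw [hy, if_neg hne]
      · intro h
        exact absurd (Finset.mem_filter.2 ⟨Finset.mem_univ b, hb⟩ :
          b ∈ Finset.univ.filter (fun b' => Φ.π (v, w) b' = a)) h
    have h2 : x v a = 0 := h0
    rw [h2, inner_zero_left] at h1
    linarith
  · intro w b h0
    have h1 := hy w b b
    have h2 : y w b = 0 := h0
    rw [if_pos rfl, h2, inner_zero_left] at h1
    linarith

end Generic

variable {F : Type} [Field F] [Fintype F] {k : ℕ} (S : Subgroup Fˣ)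

/-- the index set of the vectors -/
abbrev JJ (S : Subgroup Fˣ) (k : ℕ) : Type := Fin (nn F k) × S × S

/-- the phases -/
def ph (ψ : AddChar F ℂ) (T : WW S k) (x : AA F k) (i : Fin (nn F k)) (κ : S) : ℂ :=
  if pt F k i = 0 then 1 else ψ (sc S κ * evT S T x i)

/-- the vectors of the right labels, as complex functions -/
def uu (ψ : AddChar F ℂ) (T : WW S k) (p : AA F k × S) (j : JJ S k) : ℂ :=
  if j.2.2 = p.2 then
    (1 / ((Fintype.card (AA F k) : ℂ) * (Fintype.card S : ℂ))) * ph S ψ T p.1 j.1 j.2.1 else 0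

lemma ph_mul (ψ : AddChar F ℂ) (T : WW S k) (x x' : AA F k) (i : Fin (nn F k)) (κ : S) :
    ph S ψ T x i κ * starRingEnd ℂ (ph S ψ T x' i κ) =
      ψ (dot (pt F k i) ((sc S (κ * T.2 i)) • (x - x'))) := by
  rw [dot_smul, sc_mul, dot_sub]
  by_cases h : pt F k i = 0
  · rw [ph, ph, if_pos h, if_pos h, h]
    simp [dot]
  · rw [ph, ph, if_neg h, if_neg h, ← AddChar.map_neg_eq_conj, ← AddChar.map_add_eq_mul]
    congr 1
    rw [evT, evT, Pi.add_apply, Pi.add_apply, code_apply, code_apply]
    ring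

/-- the sum of the phases -/
lemma sum_ph (ψ : AddChar F ℂ) (hψ : ψ.IsPrimitive) (T : WW S k) (x x' : AA F k) :
    ∑ i, ∑ κ, ph S ψ T x i κ * starRingEnd ℂ (ph S ψ T x' i κ) =
      if x = x' then (Fintype.card S : ℂ) * (Fintype.card (AA F k) : ℂ) else 0 := by
  have h1 : ∀ i, ∑ κ, ph S ψ T x i κ * starRingEnd ℂ (ph S ψ T x' i κ) =
      ∑ κ : S, ψ (dot (pt F k i) (sc S κ • (x - x'))) := by
    intro i
    rw [← Equiv.sum_comp (Equiv.mulRight (T.2 i))
      (fun κ : S => ψ (dot (pt F k i) (sc S κ • (x - x'))))]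
    refine Finset.sum_congr rfl fun κ _ => ?_
    rw [ph_mul, Equiv.coe_mulRight]
  rw [Finset.sum_congr rfl fun i _ => h1 i, Finset.sum_comm]
  have h2 : ∀ κ : S, ∑ i, ψ (dot (pt F k i) (sc S κ • (x - x'))) =
      if x = x' then (Fintype.card (AA F k) : ℂ) else 0 := by
    intro κ
    rw [Equiv.sum_comp (pt F k) (fun b => ψ (dot b (sc S κ • (x - x')))), sum_psi_dot ψ hψ]
    have h3 : (Fintype.card F : ℂ) ^ k = (Fintype.card (AA F k) : ℂ) := by
      rw [Fintype.card_fun, Fintype.card_fin]; push_cast; rfl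
    rw [h3]
    congr 1
    rw [eq_iff_iff, smul_eq_zero, or_iff_right (sc_ne S κ), sub_eq_zero]
  rw [Finset.sum_congr rfl fun κ _ => h2 κ, Finset.sum_const, Finset.card_univ, nsmul_eq_mul]
  split_ifs <;> simp

lemma inner_uu (ψ : AddChar F ℂ) (hψ : ψ.IsPrimitive) (T : WW S k) (p p' : AA F k × S) :
    ⟪vec (uu S ψ T p), vec (uu S ψ T p')⟫ =
      if p = p' then 1 / ((Fintype.card S * Fintype.card (AA F k) : ℕ) : ℝ) else 0 := by
  have hN : (Fintype.card (AA F k) : ℂ) ≠ 0 := by exact_mod_cast Fintype.card_ne_zero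
  have hS : (Fintype.card S : ℂ) ≠ 0 := by exact_mod_cast Fintype.card_ne_zero
  rw [inner_vec, Fintype.sum_prod_type]
  have h1 : ∀ i : Fin (nn F k), ∑ q : S × S, uu S ψ T p (i, q) *
      starRingEnd ℂ (uu S ψ T p' (i, q)) =
      if p.2 = p'.2 then (1 / ((Fintype.card (AA F k) : ℂ) * (Fintype.card S : ℂ))) ^ 2 *
        ∑ κ, ph S ψ T p.1 i κ * starRingEnd ℂ (ph S ψ T p'.1 i κ) else 0 := by
    intro i
    rw [Fintype.sum_prod_type]
    by_cases h : p.2 = p'.2
    · rw [if_pos h, Finset.mul_sum]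
      refine Finset.sum_congr rfl fun κ _ => ?_
      rw [Finset.sum_eq_single p.2]
      · rw [uu, uu, if_pos rfl, if_pos h]
        simp only [map_mul, map_div₀, map_one, Complex.conj_natCast]
        ring
      · intro s _ hs
        rw [uu, if_neg hs, zero_mul]
      · intro h'; exact absurd (Finset.mem_univ _) h'
    · rw [if_neg h]
      refine Finset.sum_eq_zero fun κ _ => Finset.sum_eq_zero fun s _ => ?_
      rw [uu, uu]
      simp only
      by_cases hs : s = p.2
      · rw [if_neg (fun h' : s = p'.2 => h (hs.symm.trans h')), map_zero, mul_zero]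
      · rw [if_neg hs, zero_mul]
  rw [Finset.sum_congr rfl fun i _ => h1 i]
  by_cases h : p.2 = p'.2
  · simp only [if_pos h]
    rw [← Finset.mul_sum, sum_ph S ψ hψ]
    by_cases hx : p.1 = p'.1
    · rw [if_pos hx, if_pos (Prod.ext hx h)]
      have e1 : (1 / ((Fintype.card (AA F k) : ℂ) * (Fintype.card S : ℂ))) ^ 2 *
          ((Fintype.card S : ℂ) * (Fintype.card (AA F k) : ℂ)) =
          ((1 / ((Fintype.card S * Fintype.card (AA F k) : ℕ) : ℝ) : ℝ) : ℂ) := by
        push_cast
        field_simp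
      rw [e1, Complex.ofReal_re]
    · rw [if_neg hx, if_neg (fun h' => hx (congrArg Prod.fst h')), mul_zero, Complex.zero_re]
  · rw [if_neg (fun h' => h (congrArg Prod.snd h'))]
    simp only [if_neg h]
    simp

/-- the vectors of the right labels -/
def yd (ψ : AddChar F ℂ) (T : WW S k) (b : Fin (Fintype.card S * Fintype.card (AA F k))) :
    EuclideanSpace ℝ (Fin (Fintype.card (JJ S k × Bool))) := vec (uu S ψ T (labW S k b))

/-- the vectors of the left labels -/
def xd (ψ : AddChar F ℂ) (f : VV F k) (a : Fin (Fintype.card (AA F k))) :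
    EuclideanSpace ℝ (Fin (Fintype.card (JJ S k × Bool))) :=
  vec (fun j => ∑ p : AA F k × S, if gam S p = labV F k a then uu S ψ (f, fun _ => 1) p j else 0)

lemma yd_inner (ψ : AddChar F ℂ) (hψ : ψ.IsPrimitive) (T : WW S k)
    (b b' : Fin (Fintype.card S * Fintype.card (AA F k))) :
    ⟪yd S ψ T b, yd S ψ T b'⟫ =
      if b = b' then 1 / ((Fintype.card S * Fintype.card (AA F k) : ℕ) : ℝ) else 0 := by
  rw [yd, yd, inner_uu S ψ hψ]
  congr 1
  rw [eq_iff_iff, (labW S k).injective.eq_iff]

/-- multiplication by an element of the group -/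
def smE (s : S) : AA F k ≃ AA F k where
  toFun u := sc S s • u
  invFun u := sc S s⁻¹ • u
  left_inv u := by simp only [smul_smul, sc_inv, one_smul]
  right_inv u := by
    simp only [smul_smul]
    rw [mul_comm, sc_inv, one_smul]

lemma xd_edge (ψ : AddChar F ℂ) (e : VV F k × WW S k) (he : e ∈ (dinst S k).E)
    (a : Fin (Fintype.card (AA F k))) :
    xd S ψ e.1 a = ∑ b ∈ Finset.univ.filter (fun b => (dinst S k).π e b = a), yd S ψ e.2 b := by
  obtain ⟨y, hy⟩ := (mem_edg S).1 he
  obtain ⟨f, T⟩ := e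
  simp only at hy
  subst hy
  simp only [yd]
  rw [vec_sum, xd]
  congr 1
  funext j
  obtain ⟨i, κ, ι⟩ := j
  rw [Finset.sum_filter]
  have h1 : ∀ b : Fin (Fintype.card S * Fintype.card (AA F k)),
      (if (dinst S k).π (evT S T y, T) b = a then uu S ψ T (labW S k b) (i, κ, ι) else 0) =
      (fun p : AA F k × S => if gam S (p.1 - y, p.2) = labV F k a then
        uu S ψ T p (i, κ, ι) else 0) (labW S k b) := by
    intro b
    rw [dinst_pi]
    simp only
    congr 1
    rw [eq_iff_iff, Equiv.symm_apply_eq]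
  rw [Finset.sum_congr rfl fun b _ => h1 b, Equiv.sum_comp (labW S k)
    (fun p : AA F k × S => if gam S (p.1 - y, p.2) = labV F k a then
        uu S ψ T p (i, κ, ι) else 0), Fintype.sum_prod_type,
    Fintype.sum_prod_type]
  have h2 : ∑ x : AA F k, ∑ s : S, (if gam S (x - y, s) = labV F k a then
      uu S ψ T (x, s) (i, κ, ι) else 0) =
      ∑ u : AA F k, ∑ s : S, (if gam S (u, s) = labV F k a then
      uu S ψ T (u + y, s) (i, κ, ι) else 0) := by
    rw [← Equiv.sum_comp (Equiv.addRight y) (fun x => ∑ s : S,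
      (if gam S (x - y, s) = labV F k a then uu S ψ T (x, s) (i, κ, ι) else 0))]
    refine Finset.sum_congr rfl fun u _ => ?_
    rw [Equiv.coe_addRight, add_sub_cancel_right]
  refine Eq.trans ?_ h2.symm
  by_cases h0 : pt F k i = 0
  · refine Finset.sum_congr rfl fun u _ => Finset.sum_congr rfl fun s _ => ?_
    simp only [uu, ph, if_pos h0]
  · rw [← Equiv.sum_comp (smE S (T.2 i)) (fun u => ∑ s : S, (if gam S (u, s) = labV F k a then
      uu S ψ (evT S T y, fun _ => 1) (u, s) (i, κ, ι) else 0))]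
    refine Finset.sum_congr rfl fun u _ => Finset.sum_congr rfl fun s _ => ?_
    have e1 : gam S (smE S (T.2 i) u, s) = gam S (u, s) := by
      rw [gam, gam]
      simp only [smE, Equiv.coe_fn_mk]
      rw [rep_smul]
    rw [e1]
    congr 1
    simp only [uu]
    congr 2
    rw [ph, ph, if_neg h0, if_neg h0]
    congr 2
    simp only [smE, Equiv.coe_fn_mk, evT, Pi.add_apply, code_apply]
    rw [sc_one, dot_smul, dot_add]
    ring

lemma exists_edge (f : VV F k) : ∃ T, (f, T) ∈ (dinst S k).E :=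
  ⟨(f, fun _ => 1), (mem_edg S).2 ⟨0, by simp [evT]⟩⟩

lemma dR_pos : 0 < Fintype.card S * Fintype.card (AA F k) :=
  Nat.mul_pos Fintype.card_pos Fintype.card_pos

/-- **The perfect solution of the dihedral instance.** -/
def dsol (ψ : AddChar F ℂ) (hψ : ψ.IsPrimitive) :
    PerfectSolution (dinst S k) (Fintype.card (JJ S k × Bool)) :=
  mkSol (dinst S k) (xd S ψ) (yd S ψ) (dR_pos S) (yd_inner S ψ hψ) (exists_edge S) (xd_edge S ψ)

lemma dsol_full (ψ : AddChar F ℂ) (hψ : ψ.IsPrimitive) : Full (dsol (k := k) S ψ hψ) :=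
  mkSol_full (dinst S k) (xd S ψ) (yd S ψ) Fintype.card_pos (dR_pos S) (yd_inner S ψ hψ)
    (exists_edge S) (xd_edge S ψ)

/-- the common sum -/
def zd (S : Subgroup Fˣ) (k : ℕ) : EuclideanSpace ℝ (Fin (Fintype.card (JJ S k × Bool))) :=
  vec (fun j : JJ S k => if pt F k j.1 = 0 then 1 / (Fintype.card S : ℂ) else 0)

lemma norm_zd : ‖zd S k‖ = 1 := by
  have hS : (Fintype.card S : ℂ) ≠ 0 := by exact_mod_cast Fintype.card_ne_zero
  have h1 : ‖zd S k‖ ^ 2 = 1 := by
    rw [← real_inner_self_eq_norm_sq, zd, inner_vec, Fintype.sum_prod_type,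
      Finset.sum_eq_single ((pt F k).symm 0)]
    · have e1 : ∀ q : S × S, (if pt F k ((pt F k).symm 0) = 0 then 1 / (Fintype.card S : ℂ) else 0) *
          starRingEnd ℂ (if pt F k ((pt F k).symm 0) = 0 then 1 / (Fintype.card S : ℂ) else 0) =
          1 / (Fintype.card S : ℂ) ^ 2 := by
        intro q
        rw [Equiv.apply_symm_apply, if_pos rfl]
        simp only [map_div₀, map_one, Complex.conj_natCast]
        ring
      rw [Finset.sum_congr rfl fun q _ => e1 q, Finset.sum_const, Finset.card_univ,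
        Fintype.card_prod, nsmul_eq_mul]
      have e2 : ((Fintype.card S * Fintype.card S : ℕ) : ℂ) * (1 / (Fintype.card S : ℂ) ^ 2) = 1 := by
        push_cast
        field_simp
      rw [e2, Complex.one_re]
    · intro i _ hi
      refine Finset.sum_eq_zero fun q _ => ?_
      have : pt F k i ≠ 0 := fun h => hi (by rw [← h, Equiv.symm_apply_apply])
      simp only [if_neg this, map_zero, mul_zero]
    · intro h; exact absurd (Finset.mem_univ _) h
  have h2 := norm_nonneg (zd S k)
  nlinarith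

lemma sum_yd (ψ : AddChar F ℂ) (hψ : ψ.IsPrimitive) (T : WW S k) :
    ∑ b, yd S ψ T b = zd S k := by
  have hN : (Fintype.card (AA F k) : ℂ) ≠ 0 := by exact_mod_cast Fintype.card_ne_zero
  have hS : (Fintype.card S : ℂ) ≠ 0 := by exact_mod_cast Fintype.card_ne_zero
  simp only [yd]
  rw [vec_sum, zd]
  congr 1
  funext j
  obtain ⟨i, κ, ι⟩ := j
  rw [Equiv.sum_comp (labW S k) (fun p => uu S ψ T p (i, κ, ι)), Fintype.sum_prod_type]
  have h1 : ∀ x : AA F k, ∑ s : S, uu S ψ T (x, s) (i, κ, ι) =
      (1 / ((Fintype.card (AA F k) : ℂ) * (Fintype.card S : ℂ))) * ph S ψ T x i κ := by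
    intro x
    rw [Finset.sum_eq_single ι]
    · rw [uu, if_pos rfl]
    · intro s _ hs
      rw [uu, if_neg (Ne.symm hs)]
    · intro h; exact absurd (Finset.mem_univ _) h
  rw [Finset.sum_congr rfl fun x _ => h1 x, ← Finset.mul_sum]
  by_cases h0 : pt F k i = 0
  · rw [if_pos h0]
    have e1 : ∀ x : AA F k, ph S ψ T x i κ = 1 := fun x => by rw [ph, if_pos h0]
    rw [Finset.sum_congr rfl fun x _ => e1 x, Finset.sum_const, Finset.card_univ, nsmul_eq_mul,
      mul_one]
    field_simp
  · rw [if_neg h0]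
    have e1 : ∀ x : AA F k, ph S ψ T x i κ =
        ψ (sc S κ * T.1 i) * ψ (dot x ((sc S κ * sc S (T.2 i)) • pt F k i)) := by
      intro x
      rw [ph, if_neg h0, ← AddChar.map_add_eq_mul]
      congr 1
      rw [dot_smul, dot_comm x, evT, Pi.add_apply, code_apply]
      ring
    rw [Finset.sum_congr rfl fun x _ => e1 x, ← Finset.mul_sum, sum_psi_dot ψ hψ, if_neg,
      mul_zero, mul_zero]
    rw [smul_eq_zero]
    rintro (h | h)
    · exact mul_ne_zero (sc_ne S _) (sc_ne S _) h
    · exact h0 h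

lemma dsol_common (ψ : AddChar F ℂ) (hψ : ψ.IsPrimitive) : (dsol (k := k) S ψ hψ).CommonSum := by
  refine ⟨zd S k, norm_zd S, fun f => ?_, fun T => sum_yd S ψ hψ T⟩
  obtain ⟨T, hT⟩ := exists_edge S f
  have h1 : ∀ a, (dsol (k := k) S ψ hψ).x f a =
      ∑ b ∈ Finset.univ.filter (fun b => (dinst S k).π (f, T) b = a), yd S ψ T b :=
    fun a => xd_edge S ψ (f, T) hT a
  rw [Finset.sum_congr rfl fun a _ => h1 a, ← sum_yd S ψ hψ T]
  exact Finset.sum_fiberwise Finset.univ (fun b => (dinst S k).π (f, T) b) (fun b => yd S ψ T b)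

/-- **The integral affine solution of the dihedral instance.** -/
def daff (S : Subgroup Fˣ) (k : ℕ) : AffineSolution (dinst S k) (Fintype.card (AA F k)) where
  x f a := ∑ u : AA F k, if rep S u = labV F k a then 1 else 0
  y T b := if (labW S k b).2 = 1 then 1 else 0
  sum_x := by
    intro f
    rw [Equiv.sum_comp (labV F k) (fun a => ∑ u : AA F k, if rep S u = a then (1 : ℤ) else 0),
      Finset.sum_comm]
    simp
  sum_y := by
    intro T
    rw [Equiv.sum_comp (labW S k) (fun p : AA F k × S => if p.2 = 1 then (1 : ℤ) else 0),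
      Fintype.sum_prod_type]
    simp
  edge := by
    intro e he a
    obtain ⟨y, hy⟩ := (mem_edg S).1 he
    obtain ⟨f, T⟩ := e
    simp only at hy
    subst hy
    rw [Finset.sum_filter]
    have h1 : ∀ b : Fin (Fintype.card S * Fintype.card (AA F k)),
        (if (dinst S k).π (evT S T y, T) b = a then
          (if (labW S k b).2 = 1 then (1 : ℤ) else 0) else 0) =
        (fun p : AA F k × S => if gam S (p.1 - y, p.2) = labV F k a then
          (if p.2 = 1 then (1 : ℤ) else 0) else 0) (labW S k b) := by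
      intro b
      rw [dinst_pi]
      simp only
      congr 1
      rw [eq_iff_iff, Equiv.symm_apply_eq]
    rw [Finset.sum_congr rfl fun b _ => h1 b, Equiv.sum_comp (labW S k)
      (fun p : AA F k × S => if gam S (p.1 - y, p.2) = labV F k a then
          (if p.2 = 1 then (1 : ℤ) else 0) else 0), Fintype.sum_prod_type]
    have h2 : ∀ x : AA F k, ∑ s : S, (if gam S (x - y, s) = labV F k a then
        (if s = 1 then (1 : ℤ) else 0) else 0) =
        if rep S (x - y) = labV F k a then 1 else 0 := by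
      intro x
      rw [Finset.sum_eq_single 1]
      · rw [if_pos rfl, gam]
        simp only
        rw [sc_one, one_smul]
      · intro s _ hs
        rw [if_neg hs, ite_self]
      · intro h; exact absurd (Finset.mem_univ _) h
    rw [Finset.sum_congr rfl fun x _ => h2 x,
      ← Equiv.sum_comp (Equiv.addRight y) (fun x => if rep S (x - y) = labV F k a then
        (1 : ℤ) else 0)]
    refine Finset.sum_congr rfl fun u _ => ?_
    rw [Equiv.coe_addRight, add_sub_cancel_right]

end

end Pool.Agent.H60.DTO
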