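import Pool.Agent.H60.DTO.Fib

/-!
Soundness of the dihedral instances.
-/

namespace Pool.Agent.H60.DTO

open Finset Module Pool.Agent.H76.DTO Pool.Agent.H25.DTO Pool.Agent.H18.DTO
open scoped Classical

noncomputable section

set_option linter.unusedSectionVars false

variable {F : Type} [Field F] [Fintype F] {k : ℕ} (S : Subgroup Fˣ)
variable (X : WW S k → AA F k)

/-- the folded indicator of the labels -/
def alp (o : Fin (nn F k) → S) (g : VV F k) : ℝ :=
  (∑ z : AA F k, if X (g + code S o z, o) + z = 0 then (1 : ℝ) else 0) /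
    (Fintype.card (AA F k) : ℝ)

lemma Npos : (0 : ℝ) < (Fintype.card (AA F k) : ℝ) := by exact_mod_cast Fintype.card_pos

lemma alp_nonneg (o : Fin (nn F k) → S) (g : VV F k) : 0 ≤ alp S X o g :=
  div_nonneg (Finset.sum_nonneg fun z _ => by split_ifs <;> norm_num) Npos.le

lemma alp_le (o : Fin (nn F k) → S) (g : VV F k) : alp S X o g ≤ 1 := by
  rw [alp, div_le_one Npos]
  calc (∑ z : AA F k, if X (g + code S o z, o) + z = 0 then (1 : ℝ) else 0)
      ≤ ∑ _z : AA F k, (1 : ℝ) := Finset.sum_le_sum fun z _ => by split_ifs <;> norm_num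
    _ = _ := by simp

lemma sum_ind (c : AA F k) : ∑ z : AA F k, (if c + z = 0 then (1 : ℝ) else 0) = 1 := by
  have : ∀ z : AA F k, (if c + z = 0 then (1 : ℝ) else 0) = if z = -c then 1 else 0 := by
    intro z
    congr 1
    rw [eq_iff_iff, add_comm, add_eq_zero_iff_eq_neg]
  rw [Finset.sum_congr rfl fun z _ => this z]
  simp

lemma alp_orbit (o : Fin (nn F k) → S) (g : VV F k) :
    ∑ m : AA F k, alp S X o (g + code S o m) = 1 := by
  simp only [alp]
  rw [← Finset.sum_div, div_eq_one_iff_eq Npos.ne', Finset.sum_comm]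
  have h1 : ∀ z : AA F k, ∑ m : AA F k,
      (if X (g + code S o m + code S o z, o) + z = 0 then (1 : ℝ) else 0) =
      ∑ w : AA F k, (if X (g + code S o w, o) + z = 0 then (1 : ℝ) else 0) := by
    intro z
    rw [← Equiv.sum_comp (Equiv.addRight z)
      (fun w => if X (g + code S o w, o) + z = 0 then (1 : ℝ) else 0)]
    refine Finset.sum_congr rfl fun m _ => ?_
    rw [Equiv.coe_addRight, map_add, add_assoc]
  rw [Finset.sum_congr rfl fun z _ => h1 z, Finset.sum_comm,
    Finset.sum_congr rfl fun w _ => sum_ind (X (g + code S o w, o))]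
  simp

lemma alp_sum (o : Fin (nn F k) → S) :
    ∑ g, alp S X o g = (Fintype.card F : ℝ) ^ nn F k / (Fintype.card (AA F k) : ℝ) := by
  simp only [alp]
  rw [← Finset.sum_div, Finset.sum_comm]
  congr 1
  have h1 : ∀ z : AA F k, ∑ g : VV F k,
      (if X (g + code S o z, o) + z = 0 then (1 : ℝ) else 0) =
      ∑ g : VV F k, (if X (g, o) + z = 0 then (1 : ℝ) else 0) := by
    intro z
    exact Equiv.sum_comp (Equiv.addRight (code S o z))
      (fun g => if X (g, o) + z = 0 then (1 : ℝ) else 0)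
  rw [Finset.sum_congr rfl fun z _ => h1 z, Finset.sum_comm,
    Finset.sum_congr rfl fun g _ => sum_ind (X (g, o)), Finset.sum_const, nsmul_eq_mul, mul_one]
  exact card_fun

variable (P : VV F k → AA F k → Prop)

/-- folding the count of the satisfied edges -/
lemma fold_count (o : Fin (nn F k) → S) :
    ∑ g : VV F k, ∑ y : AA F k, (if P (g + code S o y) (X (g, o) - y) then (1 : ℝ) else 0) =
      (Fintype.card (AA F k) : ℝ) * ∑ u : AA F k, ∑ g : VV F k,
        alp S X o g * (if P (g + code S o u) (-u) then (1 : ℝ) else 0) := by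
  have h1 : ∀ (u : AA F k) (g : VV F k), (Fintype.card (AA F k) : ℝ) *
      (alp S X o g * (if P (g + code S o u) (-u) then (1 : ℝ) else 0)) =
      ∑ z : AA F k, (if X (g + code S o z, o) + z = 0 then (1 : ℝ) else 0) *
        (if P (g + code S o u) (-u) then (1 : ℝ) else 0) := by
    intro u g
    rw [← mul_assoc, alp, mul_div_cancel₀ _ Npos.ne', Finset.sum_mul]
  have h2 : ∀ (u z : AA F k), ∑ g : VV F k,
      (if X (g + code S o z, o) + z = 0 then (1 : ℝ) else 0) *
        (if P (g + code S o u) (-u) then (1 : ℝ) else 0) =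
      ∑ g : VV F k, (if X (g, o) + z = 0 then (1 : ℝ) else 0) *
        (if P (g + code S o (u - z)) (-u) then (1 : ℝ) else 0) := by
    intro u z
    rw [← Equiv.sum_comp (Equiv.addRight (code S o z))
      (fun g => (if X (g, o) + z = 0 then (1 : ℝ) else 0) *
        (if P (g + code S o (u - z)) (-u) then (1 : ℝ) else 0))]
    refine Finset.sum_congr rfl fun g _ => ?_
    have e1 : g + code S o z + code S o (u - z) = g + code S o u := by
      rw [map_sub]; abel
    rw [Equiv.coe_addRight, e1]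
  have h3 : (Fintype.card (AA F k) : ℝ) * ∑ u : AA F k, ∑ g : VV F k,
        alp S X o g * (if P (g + code S o u) (-u) then (1 : ℝ) else 0) =
      ∑ u : AA F k, ∑ z : AA F k, ∑ g : VV F k, (if X (g, o) + z = 0 then (1 : ℝ) else 0) *
        (if P (g + code S o (u - z)) (-u) then (1 : ℝ) else 0) := by
    rw [Finset.mul_sum]
    refine Finset.sum_congr rfl fun u _ => ?_
    rw [Finset.mul_sum, Finset.sum_congr rfl fun g _ => h1 u g, Finset.sum_comm]
    exact Finset.sum_congr rfl fun z _ => h2 u z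
  rw [h3]
  have h4 : ∑ u : AA F k, ∑ z : AA F k, ∑ g : VV F k,
      (if X (g, o) + z = 0 then (1 : ℝ) else 0) *
        (if P (g + code S o (u - z)) (-u) then (1 : ℝ) else 0) =
      ∑ z : AA F k, ∑ y : AA F k, ∑ g : VV F k, (if X (g, o) + z = 0 then (1 : ℝ) else 0) *
        (if P (g + code S o y) (-(y + z)) then (1 : ℝ) else 0) := by
    rw [Finset.sum_comm]
    refine Finset.sum_congr rfl fun z _ => ?_
    rw [← Equiv.sum_comp (Equiv.addRight z) (fun u => ∑ g : VV F k,
      (if X (g, o) + z = 0 then (1 : ℝ) else 0) *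
        (if P (g + code S o (u - z)) (-u) then (1 : ℝ) else 0))]
    refine Finset.sum_congr rfl fun y _ => ?_
    refine Finset.sum_congr rfl fun g _ => ?_
    rw [Equiv.coe_addRight, add_sub_cancel_right]
  rw [h4]
  have h5 : ∀ y : AA F k, ∑ z : AA F k, ∑ g : VV F k,
      (if X (g, o) + z = 0 then (1 : ℝ) else 0) *
        (if P (g + code S o y) (-(y + z)) then (1 : ℝ) else 0) =
      ∑ g : VV F k, (if P (g + code S o y) (X (g, o) - y) then (1 : ℝ) else 0) := by
    intro y
    rw [Finset.sum_comm]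
    refine Finset.sum_congr rfl fun g _ => ?_
    rw [Finset.sum_eq_single (-X (g, o))]
    · rw [if_pos (add_neg_cancel _), one_mul]
      have e1 : -(y + -X (g, o)) = X (g, o) - y := by abel
      rw [e1]
    · intro z _ hz
      rw [if_neg, zero_mul]
      intro h
      exact hz (by rw [add_comm] at h; exact add_eq_zero_iff_eq_neg.1 h)
    · intro h
      exact absurd (Finset.mem_univ _) h
  symm
  rw [Finset.sum_comm, Finset.sum_congr rfl fun y _ => h5 y, Finset.sum_comm]

/-- the average of the folded indicator over the right vertices adjacent to `f` along `u` -/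
def bet (u : AA F k) (f : VV F k) : ℝ := ∑ o, alp S X o (f - code S o u)

/-- the Fourier coefficients of `bet` -/
def cfu (ψ : AddChar F ℂ) (u : AA F k) (b : VV F k) : ℂ :=
  ∑ o, fc ψ (alp S X o) b * ψ (- dot (tw S b o) u)

lemma bet_eq (ψ : AddChar F ℂ) (hψ : ψ.IsPrimitive) (u : AA F k) (f : VV F k) :
    ((bet S X u f : ℝ) : ℂ) = fsum ψ (cfu S X ψ u) f := by
  rw [bet, Complex.ofReal_sum]
  have h1 : ∀ o, ((alp S X o (f - code S o u) : ℝ) : ℂ) =
      ∑ b, (fc ψ (alp S X o) b * ψ (- dot (tw S b o) u)) * ψ (∑ i, b i * f i) := by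
    intro o
    rw [← fsum_fc ψ hψ, fsum]
    refine Finset.sum_congr rfl fun b _ => ?_
    rw [mul_assoc, ← AddChar.map_add_eq_mul]
    congr 2
    have e1 : ∑ i, b i * (f - code S o u) i = dot b (f - code S o u) := rfl
    have e2 : ∑ i, b i * f i = dot b f := rfl
    rw [e1, e2, dot_sub, dot_code]
    ring
  rw [Finset.sum_congr rfl fun o _ => h1 o, Finset.sum_comm, fsum]
  refine Finset.sum_congr rfl fun b _ => ?_
  rw [cfu, Finset.sum_mul]

lemma bet_sq (ψ : AddChar F ℂ) (hψ : ψ.IsPrimitive) (u : AA F k) :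
    ∑ f, bet S X u f ^ 2 = (Fintype.card F : ℝ) ^ nn F k * ∑ b, ‖cfu S X ψ u b‖ ^ 2 := by
  rw [← fsum_sq ψ hψ]
  refine Finset.sum_congr rfl fun f _ => ?_
  rw [← bet_eq S X ψ hψ, Complex.norm_real, Real.norm_eq_abs, sq_abs]

lemma cfu_sq (ψ : AddChar F ℂ) (hψ : ψ.IsPrimitive) (b : VV F k) :
    ∑ u, ‖cfu S X ψ u b‖ ^ 2 ≤ (Fintype.card (AA F k) : ℝ) *
      ((Fintype.card S : ℝ) ^ nn F k * ((Fintype.card S : ℝ) ^ rk b)⁻¹) *
        ∑ o, ‖fc ψ (alp S X o) b‖ ^ 2 := by
  set c : AA F k → ℂ := fun s => ∑ o ∈ Finset.univ.filter (fun o => - tw S b o = s),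
    fc ψ (alp S X o) b with hc
  have h1 : ∀ u, cfu S X ψ u b = fsum ψ c u := by
    intro u
    rw [cfu, fsum, ← Finset.sum_fiberwise Finset.univ (fun o => - tw S b o)]
    refine Finset.sum_congr rfl fun s _ => ?_
    rw [hc]
    simp only
    rw [Finset.sum_mul]
    refine Finset.sum_congr rfl fun o ho => ?_
    have e1 : - tw S b o = s := (Finset.mem_filter.1 ho).2
    have e2 : ∑ i, s i * u i = dot s u := rfl
    rw [e2, ← e1]
    congr 2
    rw [dot_comm (- tw S b o) u, dot_neg, dot_comm]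
  have hcard : (Fintype.card F : ℝ) ^ k = (Fintype.card (AA F k) : ℝ) := card_fun.symm
  rw [Finset.sum_congr rfl fun u _ => by rw [h1 u], fsum_sq ψ hψ, hcard, mul_assoc]
  refine mul_le_mul_of_nonneg_left ?_ Npos.le
  have hS : (0 : ℝ) < (Fintype.card S : ℝ) := by exact_mod_cast Fintype.card_pos
  rw [← Finset.sum_fiberwise Finset.univ (fun o => - tw S b o)
    (fun o => ‖fc ψ (alp S X o) b‖ ^ 2), Finset.mul_sum]
  refine Finset.sum_le_sum fun s _ => ?_
  rw [hc]
  simp only
  have e1 : ((Finset.univ.filter (fun o : Fin (nn F k) → S => - tw S b o = s)).card : ℝ) ≤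
      (Fintype.card S : ℝ) ^ nn F k * ((Fintype.card S : ℝ) ^ rk b)⁻¹ := by
    rw [← div_eq_mul_inv, le_div_iff₀ (by positivity)]
    have e2 := card_tw S b (-s)
    have e3 : Finset.univ.filter (fun o : Fin (nn F k) → S => - tw S b o = s) =
        Finset.univ.filter (fun o : Fin (nn F k) → S => tw S b o = -s) := by
      ext o
      rw [Finset.mem_filter, Finset.mem_filter, neg_eq_iff_eq_neg]
    rw [e3]
    exact_mod_cast e2
  calc ‖∑ o ∈ Finset.univ.filter (fun o => - tw S b o = s), fc ψ (alp S X o) b‖ ^ 2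
      ≤ (∑ o ∈ Finset.univ.filter (fun o => - tw S b o = s), ‖fc ψ (alp S X o) b‖) ^ 2 :=
        pow_le_pow_left₀ (norm_nonneg _) (norm_sum_le _ _) 2
    _ ≤ ((Finset.univ.filter (fun o : Fin (nn F k) → S => - tw S b o = s)).card : ℝ) *
        ∑ o ∈ Finset.univ.filter (fun o => - tw S b o = s), ‖fc ψ (alp S X o) b‖ ^ 2 :=
        sq_sum_le_card_mul_sum_sq
    _ ≤ _ := mul_le_mul_of_nonneg_right e1 (Finset.sum_nonneg fun o _ => sq_nonneg _)

/-- the second moment of the averages -/
lemma bet_total (ψ : AddChar F ℂ) (hψ : ψ.IsPrimitive) (D₀ : ℕ)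
    (hD : (5 / 2 * (Fintype.card F : ℝ)) ^ D₀ ≤ √(Fintype.card (AA F k) : ℝ)) :
    ∑ u, ∑ f, bet S X u f ^ 2 ≤ (Fintype.card F : ℝ) ^ nn F k *
      ((Fintype.card S : ℝ) ^ nn F k) ^ 2 * (3 * ((Fintype.card S : ℝ) ^ D₀)⁻¹) := by
  set q : ℝ := (Fintype.card F : ℝ) with hq
  have hq0 : 0 < q := qpos
  set N : ℝ := (Fintype.card (AA F k) : ℝ) with hN
  have hN0 : 0 < N := Npos
  set dd : ℝ := (Fintype.card S : ℝ) with hdd
  have hd0 : 0 < dd := by rw [hdd]; exact_mod_cast Fintype.card_pos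
  have hdq : Fintype.card S ≤ Fintype.card F := Fintype.card_le_of_injective (sc S) (sc_inj S)
  have hw : ∀ o, N * ∑ b, ‖fc ψ (alp S X o) b‖ ^ 2 * (dd ^ rk b)⁻¹ ≤ 3 * (dd ^ D₀)⁻¹ := by
    intro o
    exact weighted_code ψ hψ (code S o) (alp S X o) (alp_nonneg S X o) (alp_le S X o)
      (fun g => (alp_orbit S X o g).le) (alp_sum S X o) (Fintype.card S) D₀ Fintype.card_pos hdq
      rk (card_van_le S o) hD
  calc ∑ u, ∑ f, bet S X u f ^ 2 = q ^ nn F k * ∑ b, ∑ u, ‖cfu S X ψ u b‖ ^ 2 := by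
        rw [Finset.sum_congr rfl fun u _ => bet_sq S X ψ hψ u, ← Finset.mul_sum, Finset.sum_comm]
    _ ≤ q ^ nn F k * ∑ b, N * (dd ^ nn F k * (dd ^ rk b)⁻¹) *
        ∑ o, ‖fc ψ (alp S X o) b‖ ^ 2 := by
        refine mul_le_mul_of_nonneg_left (Finset.sum_le_sum fun b _ => ?_) (by positivity)
        exact cfu_sq S X ψ hψ b
    _ = q ^ nn F k * dd ^ nn F k *
        ∑ o, N * ∑ b, ‖fc ψ (alp S X o) b‖ ^ 2 * (dd ^ rk b)⁻¹ := by
        simp only [Finset.mul_sum]
        rw [Finset.sum_comm]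
        refine Finset.sum_congr rfl fun o _ => Finset.sum_congr rfl fun b _ => ?_
        ring
    _ ≤ q ^ nn F k * dd ^ nn F k * ∑ _o : Fin (nn F k) → S, 3 * (dd ^ D₀)⁻¹ := by
        refine mul_le_mul_of_nonneg_left (Finset.sum_le_sum fun o _ => hw o) (by positivity)
    _ = _ := by
        rw [Finset.sum_const, Finset.card_univ, Fintype.card_fun, Fintype.card_fin, nsmul_eq_mul]
        push_cast
        ring

/-- The count of the satisfied pairs. -/
lemma count_sq (ψ : AddChar F ℂ) (hψ : ψ.IsPrimitive) (D₀ : ℕ)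
    (hD : (5 / 2 * (Fintype.card F : ℝ)) ^ D₀ ≤ √(Fintype.card (AA F k) : ℝ))
    (G : VV F k → AA F k) :
    (∑ T : WW S k, ∑ y : AA F k,
      (if Rel S (G (evT S T y)) (X T - y) then (1 : ℝ) else 0)) ^ 2 ≤
      ((Fintype.card F : ℝ) ^ nn F k * (Fintype.card S : ℝ) ^ nn F k *
        (Fintype.card (AA F k) : ℝ)) ^ 2 *
        (3 * (Fintype.card S : ℝ) * ((Fintype.card S : ℝ) ^ D₀)⁻¹) := by
  set q : ℝ := (Fintype.card F : ℝ) with hq
  have hq0 : 0 < q := qpos
  set N : ℝ := (Fintype.card (AA F k) : ℝ) with hN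
  have hN0 : 0 < N := Npos
  set dd : ℝ := (Fintype.card S : ℝ) with hdd
  have hd0 : 0 < dd := by rw [hdd]; exact_mod_cast Fintype.card_pos
  have h1 : ∑ T : WW S k, ∑ y : AA F k,
      (if Rel S (G (evT S T y)) (X T - y) then (1 : ℝ) else 0) =
      N * ∑ u, ∑ f, bet S X u f * (if Rel S (G f) (-u) then (1 : ℝ) else 0) := by
    rw [Fintype.sum_prod_type, Finset.sum_comm]
    have e1 : ∀ o : Fin (nn F k) → S, ∑ g : VV F k, ∑ y : AA F k,
        (if Rel S (G (evT S (g, o) y)) (X (g, o) - y) then (1 : ℝ) else 0) =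
        N * ∑ u : AA F k, ∑ g : VV F k,
        alp S X o g * (if Rel S (G (g + code S o u)) (-u) then (1 : ℝ) else 0) := by
      intro o
      exact fold_count S X (fun f u => Rel S (G f) u) o
    rw [Finset.sum_congr rfl fun o _ => e1 o, ← Finset.mul_sum, Finset.sum_comm]
    congr 1
    refine Finset.sum_congr rfl fun u _ => ?_
    have e2 : ∀ o : Fin (nn F k) → S, ∑ g : VV F k,
        alp S X o g * (if Rel S (G (g + code S o u)) (-u) then (1 : ℝ) else 0) =
        ∑ f : VV F k, alp S X o (f - code S o u) *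
          (if Rel S (G f) (-u) then (1 : ℝ) else 0) := by
      intro o
      rw [← Equiv.sum_comp (Equiv.addRight (code S o u))
        (fun f => alp S X o (f - code S o u) * (if Rel S (G f) (-u) then (1 : ℝ) else 0))]
      refine Finset.sum_congr rfl fun g _ => ?_
      rw [Equiv.coe_addRight, add_sub_cancel_right]
    rw [Finset.sum_congr rfl fun o _ => e2 o, Finset.sum_comm]
    refine Finset.sum_congr rfl fun f _ => ?_
    rw [bet, Finset.sum_mul]
  have h2 : (∑ u, ∑ f, bet S X u f * (if Rel S (G f) (-u) then (1 : ℝ) else 0)) ^ 2 ≤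
      (∑ u, ∑ f, bet S X u f ^ 2) * (q ^ nn F k * dd) := by
    have e1 := Finset.sum_mul_sq_le_sq_mul_sq (Finset.univ : Finset (AA F k × VV F k))
      (fun p => bet S X p.1 p.2) (fun p => if Rel S (G p.2) (-p.1) then (1 : ℝ) else 0)
    rw [Fintype.sum_prod_type, Fintype.sum_prod_type, Fintype.sum_prod_type] at e1
    refine e1.trans (mul_le_mul_of_nonneg_left ?_
      (Finset.sum_nonneg fun u _ => Finset.sum_nonneg fun f _ => sq_nonneg _))
    rw [Finset.sum_comm]
    have e2 : ∀ f : VV F k, ∑ u : AA F k,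
        (if Rel S (G f) (-u) then (1 : ℝ) else 0) ^ 2 ≤ dd := by
      intro f
      have e3 : ∀ u : AA F k, (if Rel S (G f) (-u) then (1 : ℝ) else 0) ^ 2 =
          if Rel S (G f) (-u) then (1 : ℝ) else 0 := fun u => by split_ifs <;> norm_num
      rw [Finset.sum_congr rfl fun u _ => e3 u, Finset.sum_boole, hdd]
      have e4 : (Finset.univ.filter (fun u : AA F k => Rel S (G f) (-u))).card ≤
          (Finset.univ.image (fun s : S => -(sc S s • G f))).card := by
        refine Finset.card_le_card fun u hu => ?_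
        obtain ⟨s, hs⟩ := (Finset.mem_filter.1 hu).2
        exact Finset.mem_image.2 ⟨s, Finset.mem_univ _, by rw [← hs, neg_neg]⟩
      have e5 := e4.trans Finset.card_image_le
      rw [Finset.card_univ] at e5
      exact_mod_cast e5
    calc ∑ f : VV F k, ∑ u : AA F k, (if Rel S (G f) (-u) then (1 : ℝ) else 0) ^ 2
        ≤ ∑ _f : VV F k, dd := Finset.sum_le_sum fun f _ => e2 f
      _ = q ^ nn F k * dd := by
          rw [Finset.sum_const, Finset.card_univ, nsmul_eq_mul, card_fun]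
  rw [h1, mul_pow]
  have h3 := bet_total S X ψ hψ D₀ hD
  rw [← hq, ← hdd] at h3
  calc N ^ 2 * (∑ u, ∑ f, bet S X u f * (if Rel S (G f) (-u) then (1 : ℝ) else 0)) ^ 2
      ≤ N ^ 2 * ((q ^ nn F k * (dd ^ nn F k) ^ 2 * (3 * (dd ^ D₀)⁻¹)) * (q ^ nn F k * dd)) := by
        refine mul_le_mul_of_nonneg_left (h2.trans ?_) (sq_nonneg _)
        exact mul_le_mul_of_nonneg_right h3 (by positivity)
    _ = _ := by ring

/-- **Soundness**: every instance on the edges of the dihedral instance whose satisfied edges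
respect the orbit relation has small value. -/
theorem edg_frac {d' : ℕ} (Φ : LabelCover (VV F k) (WW S k) d' (Fintype.card (AA F k)))
    (hΦE : Φ.E = edg S k) (D₀ : ℕ)
    (hD : (5 / 2 * (Fintype.card F : ℝ)) ^ D₀ ≤ √(Fintype.card (AA F k) : ℝ))
    (Fl : VV F k → Fin (Fintype.card (AA F k)))
    (gl : WW S k → Fin (d' * Fintype.card (AA F k))) (XX : WW S k → AA F k)
    (hrel : ∀ T y, Φ.π (evT S T y, T) (gl T) = Fl (evT S T y) →
      Rel S (labV F k (Fl (evT S T y))) (XX T - y)) :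
    Φ.frac Fl gl ^ 2 ≤
      3 * (Fintype.card S : ℝ) * ((Fintype.card S : ℝ) ^ D₀)⁻¹ := by
  set ψ : AddChar F ℂ := AddChar.FiniteField.primitiveChar_to_Complex F with hψd
  have hψ : ψ.IsPrimitive := AddChar.FiniteField.primitiveChar_to_Complex_isPrimitive F
  set G : VV F k → AA F k := fun f => labV F k (Fl f) with hG
  have h1 := count_sq S XX ψ hψ D₀ hD G
  set Sat := Φ.E.filter (fun e => Φ.π e (gl e.2) = Fl e.1) with hSat
  have h2 : (Sat.card : ℝ) ≤ ∑ T : WW S k, ∑ y : AA F k,
      (if Rel S (G (evT S T y)) (XX T - y) then (1 : ℝ) else 0) := by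
    have e1 : Sat.card ≤ ((Finset.univ : Finset (WW S k × AA F k)).filter
        (fun p => Rel S (G (evT S p.1 p.2)) (XX p.1 - p.2))).card := by
      have e2 : Sat ⊆ ((Finset.univ : Finset (WW S k × AA F k)).filter
        (fun p => Rel S (G (evT S p.1 p.2)) (XX p.1 - p.2))).image
          (fun p => (evT S p.1 p.2, p.1)) := by
        intro e he
        obtain ⟨he1, he2⟩ := Finset.mem_filter.1 he
        rw [hΦE] at he1
        obtain ⟨y, hy⟩ := (mem_edg S).1 he1
        have he' : e = (evT S e.2 y, e.2) := Prod.ext hy rfl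
        refine Finset.mem_image.2 ⟨(e.2, y), Finset.mem_filter.2 ⟨Finset.mem_univ _, ?_⟩,
          he'.symm⟩
        rw [he'] at he2
        exact hrel e.2 y he2
      exact (Finset.card_le_card e2).trans Finset.card_image_le
    rw [← Fintype.sum_prod_type' (f := fun (T : WW S k) (y : AA F k) =>
      (if Rel S (G (evT S T y)) (XX T - y) then (1 : ℝ) else 0)), Finset.sum_boole]
    exact_mod_cast e1
  have hE : (Φ.E.card : ℝ) = (Fintype.card F : ℝ) ^ nn F k *
      (Fintype.card S : ℝ) ^ nn F k * (Fintype.card (AA F k) : ℝ) := by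
    rw [hΦE, card_edg (k := k) S]
    push_cast
    ring
  have hE0 : 0 < (Φ.E.card : ℝ) := by
    rw [hE]
    have e1 : (0 : ℝ) < (Fintype.card F : ℝ) := qpos
    have e2 : (0 : ℝ) < (Fintype.card S : ℝ) := by exact_mod_cast Fintype.card_pos
    have e3 : (0 : ℝ) < (Fintype.card (AA F k) : ℝ) := Npos
    positivity
  rw [LabelCover.frac, ← hSat, div_pow, div_le_iff₀ (by positivity), hE, mul_comm]
  refine le_trans ?_ h1
  exact pow_le_pow_left₀ (Nat.cast_nonneg _) h2 2

end

end Pool.Agent.H60.DTO
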